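import Mathlib

/-!
# Fuchsian groups, random homomorphisms and Hypothesis (H)
-/

namespace Pool.Agent.Helper56.Fuchsian

open Filter Topology
open scoped MatrixGroups UpperHalfPlane LinearAlgebra.Projectivization

/-- An (oriented) Fuchsian group: a finitely generated, discrete, non-elementary subgroup of
`PSL(2, ℝ)`, the group of orientation-preserving isometries of the hyperbolic plane.
Non-elementary means that there is no finite orbit, neither in the hyperbolic plane nor on its
circle at infinity (the real projective line). -/
structure IsFuchsian (Γ : Subgroup PSL(2, ℝ)) : Prop where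
  /-- finitely generated -/
  fg : Γ.FG
  /-- discrete, for the quotient topology of `PSL(2, ℝ)` -/
  discrete : DiscreteTopology Γ
  /-- every orbit in the hyperbolic plane is infinite -/
  orbit_plane : ∀ z : ℍ,
    {w : ℍ | ∃ g : SL(2, ℝ), (QuotientGroup.mk g : PSL(2, ℝ)) ∈ Γ ∧ g • z = w}.Infinite
  /-- every orbit on the circle at infinity is infinite -/
  orbit_boundary : ∀ P : ℙ ℝ (Fin 2 → ℝ),
    {Q : ℙ ℝ (Fin 2 → ℝ) | ∃ γ : PSL(2, ℝ), γ ∈ Γ ∧ γ • P = Q}.Infinite

/-- The proportion of the homomorphisms `Γ →* G` which have the property `P`. -/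
noncomputable def homProb (Γ G : Type*) [Group Γ] [Group G] (P : (Γ →* G) → Prop) : ℝ :=
  (Nat.card {φ : Γ →* G // P φ} : ℝ) / (Nat.card (Γ →* G) : ℝ)

/-- The family `G` is (an indexing without repetitions of) an infinite set of finite nonabelian
simple groups. -/
structure IsInfiniteSetOfFiniteSimpleGroups {ι : Type} (G : ι → Type) [∀ i, Group (G i)] :
    Prop where
  /-- there are infinitely many members -/
  infinite : Infinite ι
  /-- each member is finite -/
  finite : ∀ i, Finite (G i)
  /-- each member is simple -/
  simple : ∀ i, IsSimpleGroup (G i)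
  /-- each member is nonabelian -/
  nonabelian : ∀ i, ∃ a b : G i, a * b ≠ b * a
  /-- different members are not isomorphic -/
  noniso : ∀ i j, Nonempty (G i ≃* G j) → i = j

/-- Hypothesis (H) for the group `Γ` and the set `S` of the groups `G i`: a random homomorphism
`Γ →* G i` is surjective with probability tending to `1` as the order of `G i` tends to
infinity. -/
def HypothesisH {ι : Type} (Γ : Type*) [Group Γ] (G : ι → Type) [∀ i, Group (G i)] : Prop :=
  Tendsto (fun i => homProb Γ (G i) (fun φ => Function.Surjective φ))
    (comap (fun i => Nat.card (G i)) atTop) (𝓝 1)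

end Pool.Agent.Helper56.Fuchsian
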