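import Mathlib

/-!
# Finite groups acting with exactly two fixed points per nontrivial element
-/

namespace Pool.Agent.Helper56.Klein

open MulAction

/-- arithmetic core, with one of the multiplicities equal to two -/
lemma arith_aux (n e2 e3 s1 s2 s3 : ℕ) (h1 : 2 * s1 = n) (h2 : e2 * s2 = n) (h3 : e3 * s3 = n)
    (he2 : 2 ≤ e2) (he3 : 2 ≤ e3) (hs2 : 3 ≤ s2) (hs3 : 3 ≤ s3)
    (hsum : s1 + s2 + s3 = n + 2) : n ≤ 60 := by
  have key : ∀ (e2 e3 s2 s3 : ℕ), e2 * s2 = n → e3 * s3 = n → e2 = 3 → 
      s1 + s2 + s3 = n + 2 → n ≤ 60 := by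
    intro e2 e3 s2 s3 h2 h3 he hsum
    subst he
    have h4 : 3 * s3 = s1 + 6 := by omega
    have h5 : e3 * (s1 + 6) = 6 * s1 := by
      rw [← h4]
      calc e3 * (3 * s3) = 3 * (e3 * s3) := by ring
        _ = 6 * s1 := by omega
    have h6 : e3 ≤ 5 := by
      by_contra hcon
      have : 6 * (s1 + 6) ≤ e3 * (s1 + 6) := Nat.mul_le_mul_right _ (by omega)
      omega
    interval_cases e3 <;> omega
  rcases Nat.lt_or_ge e2 3 with h | h
  · have : e2 = 2 := by omega
    subst this
    omega
  rcases Nat.lt_or_ge e3 3 with h' | h'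
  · have : e3 = 2 := by omega
    subst this
    omega
  rcases Nat.lt_or_ge e2 4 with h4 | h4
  · exact key e2 e3 s2 s3 h2 h3 (by omega) hsum
  rcases Nat.lt_or_ge e3 4 with h5 | h5
  · exact key e3 e2 s3 s2 h3 h2 (by omega) (by omega)
  have g2 : 4 * s2 ≤ n := by rw [← h2]; exact Nat.mul_le_mul_right _ h4
  have g3 : 4 * s3 ≤ n := by rw [← h3]; exact Nat.mul_le_mul_right _ h5
  omega

lemma arith {Q : Type*} [Fintype Q] (n : ℕ) (e s : Q → ℕ) (hn : 2 ≤ n)
    (hes : ∀ q, e q * s q = n) (he : ∀ q, 2 ≤ e q) (hs : ∀ q, 3 ≤ s q)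
    (hsum : ∑ q, s q + 2 * (n - 1) = Fintype.card Q * n) : n ≤ 60 := by
  classical
  set r := Fintype.card Q with hr
  have hlow : 3 * r ≤ ∑ q, s q := by
    calc 3 * r = ∑ _q : Q, 3 := by simp [hr, mul_comm]
      _ ≤ _ := Finset.sum_le_sum fun q _ => hs q
  have hhigh : 2 * ∑ q, s q ≤ r * n := by
    rw [Finset.mul_sum]
    calc ∑ q, 2 * s q ≤ ∑ _q : Q, n := Finset.sum_le_sum fun q _ => by
          rw [← hes q]; exact Nat.mul_le_mul_right _ (he q)
      _ = r * n := by simp [hr]
  have hr4 : r < 4 := by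
    by_contra hcon
    have : 4 * n ≤ r * n := Nat.mul_le_mul_right _ (by omega)
    omega
  have hr3 : 3 ≤ r := by
    by_contra hcon
    have : r = 0 ∨ r = 1 ∨ r = 2 := by omega
    rcases this with h | h | h
    · rw [h] at hsum; omega
    · rw [h] at hsum hlow; omega
    · rw [h] at hsum hlow; omega
  have hr3' : r = 3 := by omega
  let f : Q ≃ Fin 3 := Fintype.equivFinOfCardEq (by omega)
  have hsum' : s (f.symm 0) + s (f.symm 1) + s (f.symm 2) = n + 2 := by
    have : ∑ q, s q = ∑ i : Fin 3, s (f.symm i) := (Equiv.sum_comp f.symm s).symm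
    rw [Fin.sum_univ_three] at this
    rw [hr3'] at hsum
    omega
  generalize f.symm 0 = q0 at hsum'
  generalize f.symm 1 = q1 at hsum'
  generalize f.symm 2 = q2 at hsum'
  by_cases h0 : e q0 = 2
  · exact arith_aux n (e q1) (e q2) (s q0) (s q1) (s q2) (by rw [← hes q0, h0]) (hes _) (hes _)
      (he _) (he _) (hs _) (hs _) hsum'
  by_cases h1 : e q1 = 2
  · exact arith_aux n (e q0) (e q2) (s q1) (s q0) (s q2) (by rw [← hes q1, h1]) (hes _) (hes _)
      (he _) (he _) (hs _) (hs _) (by omega)
  by_cases h2 : e q2 = 2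
  · exact arith_aux n (e q0) (e q1) (s q2) (s q0) (s q1) (by rw [← hes q2, h2]) (hes _) (hes _)
      (he _) (he _) (hs _) (hs _) (by omega)
  exfalso
  have g : ∀ q, e q ≠ 2 → 3 * s q ≤ n := by
    intro q hq
    have := he q
    rw [← hes q]
    exact Nat.mul_le_mul_right _ (by omega)
  have g0 := g _ h0
  have g1 := g _ h1
  have g2 := g _ h2
  omega

/-- A finite group acting on a finite set such that every nontrivial element has exactly two fixed
points, every point is fixed by a nontrivial element, and every orbit has at least three points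
has order at most `60`. -/
lemma card_le_sixty_of_finite (H Ω : Type*) [Group H] [Fintype H] [Fintype Ω] [MulAction H Ω]
    [Nontrivial H]
    (h2 : ∀ h : H, h ≠ 1 → Nat.card (fixedBy Ω h) = 2)
    (hstab : ∀ x : Ω, ∃ h : H, h ≠ 1 ∧ h • x = x)
    (h3 : ∀ x : Ω, 3 ≤ Nat.card (orbit H x)) : Fintype.card H ≤ 60 := by
  classical
  let Q := Quotient (orbitRel H Ω)
  have burnside := sum_card_fixedBy_eq_card_orbits_mul_card_group (G := H) (X := Ω)
  have hsplit : ∑ h : H, Fintype.card (fixedBy Ω h) =
      Fintype.card Ω + 2 * (Fintype.card H - 1) := by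
    rw [← Finset.add_sum_erase Finset.univ _ (Finset.mem_univ (1 : H))]
    congr 1
    · exact Fintype.card_congr ⟨fun x => x.1, fun x => ⟨x, by simp [fixedBy]⟩, fun _ => rfl,
        fun _ => rfl⟩
    · rw [Finset.sum_congr rfl (g := fun _ => 2)]
      · rw [Finset.sum_const, Finset.card_erase_of_mem (Finset.mem_univ _), Finset.card_univ,
          smul_eq_mul, mul_comm]
      · intro h hh
        rw [← Nat.card_eq_fintype_card]
        exact h2 h (Finset.ne_of_mem_erase hh)
  have hcardΩ : Fintype.card Ω = ∑ q : Q, Fintype.card (orbit H q.out) := by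
    rw [← Fintype.card_sigma]
    exact Fintype.card_congr (selfEquivSigmaOrbits H Ω)
  apply arith (Q := Q) (Fintype.card H) (fun q => Fintype.card (stabilizer H q.out))
    (fun q => Fintype.card (orbit H q.out))
  · exact Fintype.one_lt_card
  · intro q
    rw [mul_comm]
    exact card_orbit_mul_card_stabilizer_eq_card_group H q.out
  · intro q
    obtain ⟨h, hh, hx⟩ := hstab q.out
    have : 1 < Fintype.card (stabilizer H q.out) := by
      rw [Fintype.one_lt_card_iff]
      exact ⟨⟨h, hx⟩, 1, fun e => hh (congrArg Subtype.val e)⟩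
    omega
  · intro q
    have := h3 q.out
    rwa [Nat.card_eq_fintype_card] at this
  · rw [← hcardΩ, ← hsplit, burnside]

/-- A finite group acting on a set such that every nontrivial element has exactly two fixed
points either has order at most `60` or has an orbit with at most two points. -/
theorem card_le_sixty_or_small_orbit (H X : Type*) [Group H] [Finite H] [MulAction H X]
    [Nonempty X]
    (h2 : ∀ h : H, h ≠ 1 → (fixedBy X h).ncard = 2) :
    Nat.card H ≤ 60 ∨ ∃ x : X, (orbit H x).ncard ≤ 2 := by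
  classical
  have := Fintype.ofFinite H
  by_cases hnt : Nontrivial H
  swap
  · left
    rw [not_nontrivial_iff_subsingleton] at hnt
    have : Nat.card H ≤ 1 := Finite.card_le_one_iff_subsingleton.2 hnt
    omega
  by_cases hsmall : ∃ x : X, (orbit H x).ncard ≤ 2
  · exact Or.inr hsmall
  left
  push Not at hsmall
  -- the finite invariant set of points with nontrivial stabilizer
  let S : Set X := {x | ∃ h : H, h ≠ 1 ∧ h • x = x}
  have hSfin : S.Finite := by
    have : S = ⋃ h ∈ {h : H | h ≠ 1}, fixedBy X h := by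
      ext x
      simp [S, fixedBy]
    rw [this]
    apply Set.Finite.biUnion (Set.toFinite _)
    intro h hh
    exact Set.finite_of_ncard_ne_zero (by rw [h2 h hh]; norm_num)
  have hSinv : ∀ (g : H) (x : X), x ∈ S → g • x ∈ S := by
    rintro g x ⟨h, hh, hx⟩
    refine ⟨g * h * g⁻¹, ?_, ?_⟩
    · intro e
      apply hh
      have : g * h = g := by
        rw [mul_inv_eq_one] at e
        exact e
      simpa using this
    · rw [mul_smul, mul_smul, inv_smul_smul, hx]
  let A : SubMulAction H X := ⟨S, fun {g x} hx => hSinv g x hx⟩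
  have : Fintype A := hSfin.fintype
  have key := card_le_sixty_of_finite H A ?_ ?_ ?_
  · rwa [Nat.card_eq_fintype_card]
  · intro h hh
    rw [← h2 h hh, ← Nat.card_coe_set_eq]
    refine Nat.card_congr ⟨fun x => ⟨x.1.1, ?_⟩, fun x => ⟨⟨x.1, ⟨h, hh, x.2⟩⟩, ?_⟩, ?_, ?_⟩
    · have := x.2
      exact congrArg Subtype.val this
    · exact Subtype.ext x.2
    · intro x; rfl
    · intro x; rfl
  · rintro ⟨x, h, hh, hx⟩
    exact ⟨h, hh, Subtype.ext hx⟩
  · intro x
    have := hsmall x.1
    have e : Nat.card (orbit H x) = (orbit H x.1).ncard := by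
      rw [← Nat.card_coe_set_eq]
      refine Nat.card_congr ⟨fun y => ⟨y.1.1, ?_⟩, fun y => ⟨⟨y.1, ?_⟩, ?_⟩, ?_, ?_⟩
      · obtain ⟨g, hg⟩ := y.2
        exact ⟨g, congrArg Subtype.val hg⟩
      · obtain ⟨g, hg⟩ := y.2
        rw [← hg]
        exact hSinv g _ x.2
      · obtain ⟨g, hg⟩ := y.2
        exact ⟨g, Subtype.ext hg⟩
      · intro y; rfl
      · intro y; rfl
    omega

end Pool.Agent.Helper56.Klein
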