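import Mathlib
import Pool.Agent.Helper56.Klein

/-!
# Generation of `SL(2, p)` by two elements
-/

namespace Pool.Agent.Helper56.SL2

open Matrix MulAction
open scoped MatrixGroups LinearAlgebra.Projectivization

section general

variable {K : Type*} [Field K]

lemma smul_apply_zero (g : SL(2, K)) (v : Fin 2 → K) :
    (g • v) 0 = g 0 0 * v 0 + g 0 1 * v 1 := by
  rw [Matrix.SpecialLinearGroup.smul_def]
  simp [Matrix.smul_eq_mulVec, Matrix.mulVec, dotProduct, Fin.sum_univ_two]

lemma smul_apply_one (g : SL(2, K)) (v : Fin 2 → K) :
    (g • v) 1 = g 1 0 * v 0 + g 1 1 * v 1 := by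
  rw [Matrix.SpecialLinearGroup.smul_def]
  simp [Matrix.smul_eq_mulVec, Matrix.mulVec, dotProduct, Fin.sum_univ_two]

lemma mk_eq_mk_iff_det {v w : Fin 2 → K} (hv : v ≠ 0) (hw : w ≠ 0) :
    Projectivization.mk K v hv = Projectivization.mk K w hw ↔ v 0 * w 1 = v 1 * w 0 := by
  rw [Projectivization.mk_eq_mk_iff']
  constructor
  · rintro ⟨a, rfl⟩
    simp only [Pi.smul_apply, smul_eq_mul]
    ring
  · intro h
    by_cases h0 : w 0 = 0
    · have h1 : w 1 ≠ 0 := by
        intro h1
        apply hw
        ext i
        fin_cases i
        · exact h0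
        · exact h1
      have hv0 : v 0 = 0 := by
        rw [h0, mul_zero] at h
        exact (mul_eq_zero.1 h).resolve_right h1
      refine ⟨v 1 / w 1, ?_⟩
      ext i
      fin_cases i
      · simp [h0, hv0]
      · simp [h1]
    · refine ⟨v 0 / w 0, ?_⟩
      ext i
      fin_cases i
      · simp [h0]
      · simp only [Fin.mk_one, Pi.smul_apply, smul_eq_mul]
        rw [div_mul_eq_mul_div, h, mul_div_assoc, div_self h0, mul_one]

lemma smul_mk_eq_iff (g : SL(2, K)) {v : Fin 2 → K} (hv : v ≠ 0) :
    g • Projectivization.mk K v hv = Projectivization.mk K v hv ↔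
      (g 0 0 * v 0 + g 0 1 * v 1) * v 1 = (g 1 0 * v 0 + g 1 1 * v 1) * v 0 := by
  rw [Projectivization.smul_mk, mk_eq_mk_iff_det, smul_apply_zero, smul_apply_one]

lemma det_eq (g : SL(2, K)) : g 0 0 * g 1 1 - g 0 1 * g 1 0 = 1 := by
  have := g.2
  rwa [Matrix.det_fin_two] at this

/-- over an algebraically closed field of characteristic not two, an element of `SL(2)` with
trace squared different from four has exactly two fixed points -/
lemma ncard_fixedBy [IsAlgClosed K] (h2 : (2 : K) ≠ 0) (g : SL(2, K))
    (ht : (g 0 0 + g 1 1) ^ 2 ≠ 4) : (fixedBy (ℙ K (Fin 2 → K)) g).ncard = 2 := by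
  have hdet := det_eq g
  set a := g 0 0
  set b := g 0 1
  set c := g 1 0
  set d := g 1 1
  have hD : (a - d) ^ 2 + 4 * (b * c) ≠ 0 := by
    intro h
    apply ht
    linear_combination h + 4 * hdet
  have fix : ∀ (v : Fin 2 → K) (hv : v ≠ 0),
      (Projectivization.mk K v hv ∈ fixedBy (ℙ K (Fin 2 → K)) g ↔
        b * v 1 ^ 2 + (a - d) * (v 0 * v 1) - c * v 0 ^ 2 = 0) := by
    intro v hv
    rw [mem_fixedBy, smul_mk_eq_iff]
    constructor
    · intro h
      linear_combination h
    · intro h
      linear_combination h
  by_cases hc : c = 0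
  · have had : a - d ≠ 0 := by
      intro h
      apply hD
      rw [h, hc]
      ring
    have hP : (![1, 0] : Fin 2 → K) ≠ 0 := by
      intro h
      simpa using congrFun h 0
    have hQ : (![-b, a - d] : Fin 2 → K) ≠ 0 := by
      intro h
      apply had
      simpa using congrFun h 1
    have hset : fixedBy (ℙ K (Fin 2 → K)) g =
        {Projectivization.mk K _ hP, Projectivization.mk K _ hQ} := by
      ext R
      induction R using Projectivization.ind with
      | h v hv =>
        rw [fix v hv, Set.mem_insert_iff, Set.mem_singleton_iff, mk_eq_mk_iff_det,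
          mk_eq_mk_iff_det]
        simp only [Matrix.cons_val_zero, Matrix.cons_val_one, hc]
        constructor
        · intro h
          have h' : v 1 * (b * v 1 + (a - d) * v 0) = 0 := by linear_combination h
          rcases mul_eq_zero.1 h' with h1 | h1
          · left
            rw [h1]
            ring
          · right
            linear_combination h1
        · rintro (h | h)
          · have h1 : v 1 = 0 := by simpa using h.symm
            rw [h1]
            ring
          · linear_combination v 1 * h
    rw [hset]
    apply Set.ncard_pair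
    intro h
    rw [mk_eq_mk_iff_det] at h
    simp at h
    exact had h
  · obtain ⟨s, hs⟩ := IsAlgClosed.exists_pow_nat_eq ((a - d) ^ 2 + 4 * (b * c)) (n := 2)
      (by norm_num)
    have hs0 : s ≠ 0 := by
      rintro rfl
      apply hD
      rw [← hs]
      ring
    have h2c : 2 * c ≠ 0 := mul_ne_zero h2 hc
    have hP : (![a - d + s, 2 * c] : Fin 2 → K) ≠ 0 := by
      intro h
      apply h2c
      simpa using congrFun h 1
    have hQ : (![a - d - s, 2 * c] : Fin 2 → K) ≠ 0 := by
      intro h
      apply h2c
      simpa using congrFun h 1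
    have hset : fixedBy (ℙ K (Fin 2 → K)) g =
        {Projectivization.mk K _ hP, Projectivization.mk K _ hQ} := by
      ext R
      induction R using Projectivization.ind with
      | h v hv =>
        rw [fix v hv, Set.mem_insert_iff, Set.mem_singleton_iff, mk_eq_mk_iff_det,
          mk_eq_mk_iff_det]
        simp only [Matrix.cons_val_zero, Matrix.cons_val_one]
        have hfac : 4 * c * (b * v 1 ^ 2 + (a - d) * (v 0 * v 1) - c * v 0 ^ 2) =
            - ((v 0 * (2 * c) - v 1 * (a - d + s)) * (v 0 * (2 * c) - v 1 * (a - d - s))) := by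
          linear_combination -(v 1 ^ 2) * hs
        constructor
        · intro h
          rw [h, mul_zero] at hfac
          rcases mul_eq_zero.1 (neg_eq_zero.1 hfac.symm) with h1 | h1
          · left; linear_combination h1
          · right; linear_combination h1
        · intro h
          have h0 : 4 * c * (b * v 1 ^ 2 + (a - d) * (v 0 * v 1) - c * v 0 ^ 2) = 0 := by
            rw [hfac]
            rcases h with h | h
            · rw [h]; ring
            · rw [h]; ring
          have h4c : 4 * c ≠ 0 := by
            have : (4 : K) * c = 2 * (2 * c) := by ring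
            rw [this]
            exact mul_ne_zero h2 h2c
          exact (mul_eq_zero.1 h0).resolve_left h4c
    rw [hset]
    apply Set.ncard_pair
    intro h
    rw [mk_eq_mk_iff_det] at h
    simp only [Matrix.cons_val_zero, Matrix.cons_val_one] at h
    have : (2 * c) * (2 * s) = 0 := by linear_combination h
    rcases mul_eq_zero.1 this with h' | h'
    · exact h2c h'
    · exact (mul_ne_zero h2 hs0) h'

/-- Cayley-Hamilton in coordinates: if `g ^ 2` fixes a point and `g` has nonzero trace, then `g`
fixes the point -/
lemma fixed_of_sq_fixed (g : SL(2, K)) (ht : g 0 0 + g 1 1 ≠ 0) (P : ℙ K (Fin 2 → K))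
    (h : g • g • P = P) : g • P = P := by
  have hdet := det_eq g
  induction P using Projectivization.ind with
  | h v hv =>
    rw [Projectivization.smul_mk, Projectivization.smul_mk, mk_eq_mk_iff_det] at h
    rw [smul_mk_eq_iff]
    simp only [smul_apply_zero, smul_apply_one] at h
    apply mul_left_cancel₀ ht
    linear_combination h

/-- a subgroup containing the transvections of both kinds is everything -/
lemma eq_top_of_transvections (H : Subgroup SL(2, K))
    (h : ∀ (i j : Fin 2) (hij : i ≠ j) (c : K),
      Matrix.SpecialLinearGroup.transvection hij c ∈ H) : H = ⊤ := by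
  rw [eq_top_iff]
  intro M _
  exact Matrix.SL2.transvection_induction (fun A => A ∈ H) h (fun _ _ => H.mul_mem) M

end general

section prime

variable {p : ℕ} [Fact p.Prime]

lemma transvection_mem_of_mem {i j : Fin 2} (hij : i ≠ j) {x : ZMod p} (hx : x ≠ 0)
    (H : Subgroup SL(2, ZMod p)) (h : Matrix.SpecialLinearGroup.transvection hij x ∈ H)
    (c : ZMod p) : Matrix.SpecialLinearGroup.transvection hij c ∈ H := by
  have hpow : ∀ n : ℕ, Matrix.SpecialLinearGroup.transvection hij ((n : ZMod p) * x) ∈ H := by
    intro n
    induction n with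
    | zero => simp [H.one_mem]
    | succ n ih =>
      rw [Nat.cast_succ, add_mul, one_mul, Matrix.SpecialLinearGroup.transvection_add]
      exact H.mul_mem ih h
  have := hpow (c / x).val
  rwa [ZMod.natCast_val, ZMod.cast_id', id, div_mul_cancel₀ _ hx] at this

/-- two unipotent elements with different fixed lines generate `SL(2, p)` -/
lemma eq_top_of_unipotents (H : Subgroup SL(2, ZMod p)) (u u' : SL(2, ZMod p))
    (hu : u ∈ H) (hu' : u' ∈ H) (hu1 : u ≠ 1) (hu1' : u' ≠ 1)
    (v w : Fin 2 → ZMod p) (hv : u • v = v) (hw : u' • w = w)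
    (hδ : v 0 * w 1 - v 1 * w 0 ≠ 0) : H = ⊤ := by
  set δ := v 0 * w 1 - v 1 * w 0 with hδdef
  -- the base change matrix
  let q : SL(2, ZMod p) := ⟨!![v 0, w 0 / δ; v 1, w 1 / δ], by
    rw [Matrix.det_fin_two_of]
    field_simp
    linear_combination -hδdef⟩
  let H' : Subgroup SL(2, ZMod p) := H.comap (MulAut.conj q).toMonoidHom
  have hH' : ∀ m, m ∈ H' ↔ q * m * q⁻¹ ∈ H := by
    intro m
    rfl
  have htop : H' = ⊤ → H = ⊤ := by
    intro h
    rw [eq_top_iff]
    intro m _
    have : q⁻¹ * m * q ∈ H' := by rw [h]; trivial
    rw [hH'] at this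
    simpa [mul_assoc] using this
  apply htop
  have hv0 := congrFun hv 0
  have hv1 := congrFun hv 1
  have hw0 := congrFun hw 0
  have hw1 := congrFun hw 1
  rw [smul_apply_zero] at hv0 hw0
  rw [smul_apply_one] at hv1 hw1
  have hq00 : q 0 0 = v 0 := rfl
  have hq01 : q 0 1 = w 0 / δ := rfl
  have hq10 : q 1 0 = v 1 := rfl
  have hq11 : q 1 1 = w 1 / δ := rfl
  have hinv : ∀ i j, q⁻¹ i j = (!![w 1 / δ, -(w 0 / δ); -v 1, v 0] : Matrix _ _ (ZMod p)) i j := by
    intro i j
    rw [Matrix.SpecialLinearGroup.SL2_inv_expl]
    fin_cases i <;> fin_cases j <;> rfl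
  have entry : ∀ (A B : SL(2, ZMod p)) (i j : Fin 2), (A * B) i j = A i 0 * B 0 j + A i 1 * B 1 j := by
    intro A B i j
    change (A.1 * B.1) i j = _
    rw [Matrix.mul_apply, Fin.sum_univ_two]
  -- conjugate of u
  have key : ∀ (z : SL(2, ZMod p)), (q⁻¹ * z * q) ∈ H' ↔ z ∈ H := by
    intro z
    rw [hH']
    simp [mul_assoc]
  have hcu : ∃ x : ZMod p, q⁻¹ * u * q = Matrix.SpecialLinearGroup.transvection zero_ne_one x := by
    have h00 : (q⁻¹ * u * q) 0 0 = 1 := by
      rw [entry, entry, entry, hinv, hinv, hq00, hq10]
      simp only [Matrix.of_apply, Matrix.cons_val', Matrix.cons_val_zero, Matrix.cons_val_one,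
        Matrix.cons_val_fin_one]
      field_simp
      linear_combination w 1 * hv0 - w 0 * hv1 + hδdef
    have h10 : (q⁻¹ * u * q) 1 0 = 0 := by
      rw [entry, entry, entry, hinv, hinv, hq00, hq10]
      simp only [Matrix.of_apply, Matrix.cons_val', Matrix.cons_val_zero, Matrix.cons_val_one,
        Matrix.cons_val_fin_one]
      linear_combination -(v 1) * hv0 + v 0 * hv1
    have hdet := det_eq (q⁻¹ * u * q)
    rw [h00, h10] at hdet
    refine ⟨(q⁻¹ * u * q) 0 1, ?_⟩
    ext i j
    fin_cases i <;> fin_cases j
    · simpa [Matrix.SpecialLinearGroup.transvection_coe] using h00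
    · simp [Matrix.SpecialLinearGroup.transvection_coe]
    · simpa [Matrix.SpecialLinearGroup.transvection_coe] using h10
    · simp [Matrix.SpecialLinearGroup.transvection_coe] at hdet ⊢
      exact hdet
  have hcu' : ∃ x : ZMod p, q⁻¹ * u' * q = Matrix.SpecialLinearGroup.transvection one_ne_zero x := by
    have h01 : (q⁻¹ * u' * q) 0 1 = 0 := by
      rw [entry, entry, entry, hinv, hinv, hq01, hq11]
      simp only [Matrix.of_apply, Matrix.cons_val', Matrix.cons_val_zero, Matrix.cons_val_one,
        Matrix.cons_val_fin_one]
      field_simp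
      linear_combination w 1 * hw0 - w 0 * hw1
    have h11 : (q⁻¹ * u' * q) 1 1 = 1 := by
      rw [entry, entry, entry, hinv, hinv, hq01, hq11]
      simp only [Matrix.of_apply, Matrix.cons_val', Matrix.cons_val_zero, Matrix.cons_val_one,
        Matrix.cons_val_fin_one]
      field_simp
      linear_combination -(v 1) * hw0 + v 0 * hw1 + hδdef
    have hdet := det_eq (q⁻¹ * u' * q)
    rw [h01, h11] at hdet
    refine ⟨(q⁻¹ * u' * q) 1 0, ?_⟩
    ext i j
    fin_cases i <;> fin_cases j
    · simp [Matrix.SpecialLinearGroup.transvection_coe] at hdet ⊢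
      exact hdet
    · simpa [Matrix.SpecialLinearGroup.transvection_coe] using h01
    · simp [Matrix.SpecialLinearGroup.transvection_coe]
    · simpa [Matrix.SpecialLinearGroup.transvection_coe] using h11
  obtain ⟨x, hx⟩ := hcu
  obtain ⟨y, hy⟩ := hcu'
  have hx0 : x ≠ 0 := by
    rintro rfl
    rw [Matrix.SpecialLinearGroup.transvection_coeff_zero] at hx
    apply hu1
    calc u = q * (q⁻¹ * u * q) * q⁻¹ := by group
      _ = 1 := by rw [hx]; group
  have hy0 : y ≠ 0 := by
    rintro rfl
    rw [Matrix.SpecialLinearGroup.transvection_coeff_zero] at hy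
    apply hu1'
    calc u' = q * (q⁻¹ * u' * q) * q⁻¹ := by group
      _ = 1 := by rw [hy]; group
  have hmx : Matrix.SpecialLinearGroup.transvection zero_ne_one x ∈ H' := by
    rw [← hx, key]; exact hu
  have hmy : Matrix.SpecialLinearGroup.transvection one_ne_zero y ∈ H' := by
    rw [← hy, key]; exact hu'
  apply eq_top_of_transvections
  intro i j hij c
  fin_cases i <;> fin_cases j
  · exact absurd rfl hij
  · exact transvection_mem_of_mem _ hx0 H' hmx c
  · exact transvection_mem_of_mem _ hy0 H' hmy c
  · exact absurd rfl hij

end prime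

section main

variable (p : ℕ) [Fact p.Prime]

/-- the algebraic closure of the prime field -/
abbrev KK : Type := AlgebraicClosure (ZMod p)

/-- the projective line over the algebraic closure -/
abbrev XX : Type := ℙ (KK p) (Fin 2 → KK p)

/-- the permutation of the projective line induced by an element of `SL(2, p)` -/
noncomputable def rho : SL(2, ZMod p) →* Equiv.Perm (XX p) :=
  (MulAction.toPermHom SL(2, KK p) (XX p)).comp
    (Matrix.SpecialLinearGroup.map (algebraMap (ZMod p) (KK p)))

lemma rho_apply (g : SL(2, ZMod p)) (P : XX p) :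
    rho p g P = (Matrix.SpecialLinearGroup.map (algebraMap (ZMod p) (KK p)) g) • P := rfl

variable {p}

lemma map_apply (g : SL(2, ZMod p)) (i j : Fin 2) :
    (Matrix.SpecialLinearGroup.map (algebraMap (ZMod p) (KK p)) g) i j =
      algebraMap (ZMod p) (KK p) (g i j) := rfl

lemma rho_neg_one : rho p (-1) = 1 := by
  ext P
  rw [rho_apply, Equiv.Perm.one_apply]
  induction P using Projectivization.ind with
  | h v hv =>
    rw [smul_mk_eq_iff]
    simp only [map_apply]
    simp
    ring

lemma eq_of_rho_eq_one (g : SL(2, ZMod p)) (h : rho p g = 1) : g = 1 ∨ g = -1 := by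
  have hinj : Function.Injective (algebraMap (ZMod p) (KK p)) := (algebraMap (ZMod p) (KK p)).injective
  have hfix : ∀ (v : Fin 2 → KK p) (hv : v ≠ 0),
      (Matrix.SpecialLinearGroup.map (algebraMap (ZMod p) (KK p)) g) •
        Projectivization.mk (KK p) v hv = Projectivization.mk (KK p) v hv := by
    intro v hv
    rw [← rho_apply, h]
    rfl
  have h1 : g 1 0 = 0 := by
    have := hfix ![1, 0] (fun e => by simpa using congrFun e 0)
    rw [smul_mk_eq_iff] at this
    simp only [map_apply] at this
    simp at this
    exact hinj (by simpa using this.symm)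
  have h2 : g 0 1 = 0 := by
    have := hfix ![0, 1] (fun e => by simpa using congrFun e 1)
    rw [smul_mk_eq_iff] at this
    simp only [map_apply] at this
    simp at this
    exact hinj (by simpa using this)
  have h3 : g 0 0 = g 1 1 := by
    have := hfix ![1, 1] (fun e => by simpa using congrFun e 0)
    rw [smul_mk_eq_iff] at this
    simp only [map_apply, h1, h2] at this
    simp at this
    exact this
  have hdet := det_eq g
  rw [h1, h3] at hdet
  have h4 : (g 1 1 - 1) * (g 1 1 + 1) = 0 := by linear_combination hdet
  rcases mul_eq_zero.1 h4 with h5 | h5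
  · left
    have h6 : g 1 1 = 1 := by linear_combination h5
    ext i j
    fin_cases i <;> fin_cases j
    · simpa [h6] using h3
    · simpa using h2
    · simpa using h1
    · simpa using h6
  · right
    have h6 : g 1 1 = -1 := by linear_combination h5
    ext i j
    fin_cases i <;> fin_cases j
    · simpa [h6] using h3
    · simpa using h2
    · simpa using h1
    · simpa using h6

/-- the hypotheses on a pair which guarantee that it generates `SL(2, p)` -/
structure Good (g h : SL(2, ZMod p)) : Prop where
  tg : g 0 0 + g 1 1 ≠ 0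
  th : h 0 0 + h 1 1 ≠ 0
  ord : ∀ k : ℕ, 0 < k → k ≤ 60 → rho p g ^ k ≠ 1
  fix : ∀ P : XX p, ¬ (rho p g P = P ∧ rho p h P = P)

lemma entry (A B : SL(2, ZMod p)) (i j : Fin 2) :
    (A * B) i j = A i 0 * B 0 j + A i 1 * B 1 j := by
  change (A.1 * B.1) i j = _
  rw [Matrix.mul_apply, Fin.sum_univ_two]

theorem closure_eq_top (hp : p ≠ 2) {g h : SL(2, ZMod p)} (hgood : Good g h) :
    Subgroup.closure {g, h} = ⊤ := by
  have h2 : (2 : ZMod p) ≠ 0 := by
    intro e
    have : (p : ℕ) ∣ 2 := by
      rw [← ZMod.natCast_eq_zero_iff]
      exact_mod_cast e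
    exact hp ((Nat.prime_dvd_prime_iff_eq (Fact.out) Nat.prime_two).1 this)
  have h2K : (2 : KK p) ≠ 0 := by
    intro e
    apply h2
    apply (algebraMap (ZMod p) (KK p)).injective
    rw [map_zero, map_ofNat, e]
  set H := Subgroup.closure {g, h} with hH
  have hgH : g ∈ H := Subgroup.subset_closure (by simp)
  have hhH : h ∈ H := Subgroup.subset_closure (by simp)
  by_cases hA : ∃ u ∈ H, u ≠ 1 ∧ u 0 0 + u 1 1 = 2
  · obtain ⟨u, huH, hu1, hut⟩ := hA
    have hdet := det_eq u
    obtain ⟨v, hv0, hv⟩ : ∃ v : Fin 2 → ZMod p, v ≠ 0 ∧ u • v = v := by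
      by_cases hb : u 0 1 = 0
      · have ha : u 0 0 = 1 := by
          have : (u 0 0 - 1) ^ 2 = 0 := by
            rw [hb] at hdet
            linear_combination -hdet + u 0 0 * hut
          have := pow_eq_zero_iff (two_ne_zero) |>.1 this
          linear_combination this
        refine ⟨![0, 1], fun e => by simpa using congrFun e 1, ?_⟩
        ext i
        fin_cases i
        · simp only [Fin.zero_eta]
          rw [smul_apply_zero]
          simp [hb]
        · simp only [Fin.mk_one]
          rw [smul_apply_one]
          simp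
          linear_combination hut - ha
      · refine ⟨![u 0 1, 1 - u 0 0], fun e => hb (by simpa using congrFun e 0), ?_⟩
        ext i
        fin_cases i
        · simp only [Fin.zero_eta]
          rw [smul_apply_zero]
          simp
          ring
        · simp only [Fin.mk_one]
          rw [smul_apply_one]
          simp
          linear_combination -hdet + hut
    have hvK : (fun i => algebraMap (ZMod p) (KK p) (v i)) ≠ (0 : Fin 2 → KK p) := by
      intro e
      apply hv0
      ext i
      apply (algebraMap (ZMod p) (KK p)).injective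
      simpa using congrFun e i
    have hmove : ∃ s ∈ H, v 0 * (s • v) 1 - v 1 * (s • v) 0 ≠ 0 := by
      have := hgood.fix (Projectivization.mk (KK p) _ hvK)
      rw [not_and_or] at this
      have aux : ∀ s : SL(2, ZMod p), ¬ (rho p s (Projectivization.mk (KK p) _ hvK) =
          Projectivization.mk (KK p) _ hvK) → v 0 * (s • v) 1 - v 1 * (s • v) 0 ≠ 0 := by
        intro s hs e
        apply hs
        rw [rho_apply, smul_mk_eq_iff]
        simp only [map_apply]
        rw [smul_apply_zero, smul_apply_one] at e
        have e' := congrArg (algebraMap (ZMod p) (KK p)) e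
        simp only [map_sub, map_mul, map_add, map_zero] at e'
        linear_combination -e'
      rcases this with h' | h'
      · exact ⟨g, hgH, aux g h'⟩
      · exact ⟨h, hhH, aux h h'⟩
    obtain ⟨s, hsH, hs⟩ := hmove
    refine eq_top_of_unipotents H u (s * u * s⁻¹) huH
      (H.mul_mem (H.mul_mem hsH huH) (H.inv_mem hsH)) hu1 ?_ v (s • v) hv ?_ hs
    · intro e
      apply hu1
      have : s * u = s := by
        rw [mul_inv_eq_one] at e
        exact e
      simpa using this
    · rw [mul_smul, mul_smul, inv_smul_smul, hv]
  · push Not at hA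
    have htr : ∀ m ∈ H, m ≠ 1 → m ≠ -1 → (m 0 0 + m 1 1) ^ 2 ≠ 4 := by
      intro m hm hm1 hm2 ht
      have hfac : (m 0 0 + m 1 1 - 2) * (m 0 0 + m 1 1 + 2) = 0 := by linear_combination ht
      rcases mul_eq_zero.1 hfac with h' | h'
      · exact hA m hm hm1 (by linear_combination h')
      · have hdet := det_eq m
        have hsq : m * m = 1 := by
          by_contra hne
          apply hA (m * m) (H.mul_mem hm hm) hne
          rw [entry, entry]
          linear_combination ht - 2 * hdet
        apply hm2
        have e00 := congrFun (congrFun (congrArg Subtype.val hsq) 0) 0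
        have e01 := congrFun (congrFun (congrArg Subtype.val hsq) 0) 1
        have e10 := congrFun (congrFun (congrArg Subtype.val hsq) 1) 0
        have e11 := congrFun (congrFun (congrArg Subtype.val hsq) 1) 1
        have e00' : m 0 0 * m 0 0 + m 0 1 * m 1 0 = 1 := by
          rw [← entry]; simpa using e00
        have e01' : m 0 0 * m 0 1 + m 0 1 * m 1 1 = 0 := by
          rw [← entry]; simpa using e01
        have e10' : m 1 0 * m 0 0 + m 1 1 * m 1 0 = 0 := by
          rw [← entry]; simpa using e10
        have e11' : m 1 0 * m 0 1 + m 1 1 * m 1 1 = 1 := by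
          rw [← entry]; simpa using e11
        have m01 : m 0 1 = 0 := by
          apply mul_left_cancel₀ h2
          linear_combination -e01' + m 0 1 * h'
        have m10 : m 1 0 = 0 := by
          apply mul_left_cancel₀ h2
          linear_combination -e10' + m 1 0 * h'
        have m00 : m 0 0 = -1 := by
          apply mul_left_cancel₀ h2
          linear_combination -e00' + m 0 0 * h' - hdet
        have m11 : m 1 1 = -1 := by
          apply mul_left_cancel₀ h2
          linear_combination -e11' + m 1 1 * h' - hdet
        ext i j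
        fin_cases i <;> fin_cases j
        · simpa using m00
        · simpa using m01
        · simpa using m10
        · simpa using m11
    let Hb : Subgroup (Equiv.Perm (XX p)) := H.map (rho p)
    have hfinH : Finite Hb := by
      have : Finite H := inferInstance
      exact Finite.of_surjective (fun m : H => (⟨rho p m.1, Subgroup.mem_map_of_mem _ m.2⟩ : Hb))
        (by rintro ⟨σ, m, hm, rfl⟩; exact ⟨⟨m, hm⟩, rfl⟩)
    have hXne : Nonempty (XX p) :=
      ⟨Projectivization.mk (KK p) ![1, 0] (fun e => by simpa using congrFun e 0)⟩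
    have hfixed : ∀ σ : Hb, σ ≠ 1 → (fixedBy (XX p) σ).ncard = 2 := by
      rintro ⟨σ, m, hm, rfl⟩ hσ
      have hm1 : m ≠ 1 := by
        rintro rfl
        exact hσ (Subtype.ext (map_one _))
      have hm2 : m ≠ -1 := by
        rintro rfl
        exact hσ (Subtype.ext rho_neg_one)
      have := ncard_fixedBy h2K (Matrix.SpecialLinearGroup.map (algebraMap (ZMod p) (KK p)) m) (by
        simp only [map_apply]
        intro e
        apply htr m hm hm1 hm2
        apply (algebraMap (ZMod p) (KK p)).injective
        rw [map_pow, map_add, map_ofNat]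
        exact e)
      exact this
    have hgb : rho p g ∈ Hb := Subgroup.mem_map_of_mem _ hgH
    have hhb : rho p h ∈ Hb := Subgroup.mem_map_of_mem _ hhH
    exfalso
    rcases Klein.card_le_sixty_or_small_orbit Hb (XX p) hfixed with hcard | ⟨P, hP⟩
    · have hle : orderOf (⟨rho p g, hgb⟩ : Hb) ≤ 60 := (orderOf_le_card).trans hcard
      have hpos : 0 < orderOf (⟨rho p g, hgb⟩ : Hb) := orderOf_pos _
      apply hgood.ord _ hpos hle
      have := pow_orderOf_eq_one (⟨rho p g, hgb⟩ : Hb)
      exact congrArg Subtype.val this
    · have orbfin : (orbit Hb P).Finite := Set.finite_range (fun σ : Hb => σ • P)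
      have aux : ∀ s : SL(2, ZMod p), s ∈ H → s 0 0 + s 1 1 ≠ 0 → rho p s P = P := by
        intro s hs hst
        by_contra hne
        have m0 : P ∈ orbit Hb P := mem_orbit_self P
        have m1 : rho p s P ∈ orbit Hb P := ⟨⟨rho p s, Subgroup.mem_map_of_mem _ hs⟩, rfl⟩
        have m2 : rho p s (rho p s P) ∈ orbit Hb P :=
          ⟨⟨rho p s * rho p s, Subgroup.mul_mem _ (Subgroup.mem_map_of_mem _ hs)
            (Subgroup.mem_map_of_mem _ hs)⟩, rfl⟩
        have hne2 : rho p s (rho p s P) ≠ rho p s P := fun e => hne ((rho p s).injective e)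
        have heq : rho p s (rho p s P) = P := by
          by_contra hne3
          have hsub : ({P, rho p s P, rho p s (rho p s P)} : Set (XX p)) ⊆ orbit Hb P := by
            rintro x (rfl | rfl | rfl)
            · exact m0
            · exact m1
            · exact m2
          have h3 := Set.ncard_le_ncard hsub orbfin
          rw [Set.ncard_insert_of_notMem, Set.ncard_pair hne2.symm] at h3
          · omega
          · rintro (e | e)
            · exact hne e.symm
            · exact hne3 e.symm
        apply hne
        rw [rho_apply]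
        apply fixed_of_sq_fixed
        · simp only [map_apply]
          intro e
          apply hst
          apply (algebraMap (ZMod p) (KK p)).injective
          rw [map_add, map_zero]
          exact e
        · exact heq
      exact hgood.fix P ⟨aux g hgH hgood.tg, aux h hhH hgood.th⟩

end main

end Pool.Agent.Helper56.SL2
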