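import Mathlib
import Pool.Agent.Helper56.SL2Gen

/-!
# Fourth roots of unity in `PSL(2, F)`
-/

namespace Pool.Agent.Helper56.SL2

open Matrix MulAction
open scoped MatrixGroups LinearAlgebra.Projectivization

section field

variable {F : Type*} [Field F]

lemma entry' (A B : SL(2, F)) (i j : Fin 2) :
    (A * B) i j = A i 0 * B 0 j + A i 1 * B 1 j := by
  change (A.1 * B.1) i j = _
  rw [Matrix.mul_apply, Fin.sum_univ_two]

lemma ext' {A B : SL(2, F)} (h00 : A 0 0 = B 0 0) (h01 : A 0 1 = B 0 1) (h10 : A 1 0 = B 1 0)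
    (h11 : A 1 1 = B 1 1) : A = B := by
  ext i j
  fin_cases i <;> fin_cases j
  · exact h00
  · exact h01
  · exact h10
  · exact h11

lemma neg_apply' (A : SL(2, F)) (i j : Fin 2) : (-A) i j = - (A i j) := rfl

lemma one_apply' (i j : Fin 2) : (1 : SL(2, F)) i j = (1 : Matrix (Fin 2) (Fin 2) F) i j := rfl

/-- the class of `U` in `PSL(2, F)` is trivial iff `U = 1` or `U = -1` -/
lemma mk_eq_one_iff (U : SL(2, F)) :
    (QuotientGroup.mk U : PSL(2, F)) = 1 ↔ U = 1 ∨ U = -1 := by
  rw [QuotientGroup.eq_one_iff, Matrix.SpecialLinearGroup.mem_center_iff]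
  constructor
  · rintro ⟨r, hr, hU⟩
    have hr2 : r ^ 2 = 1 := by simpa using hr
    have hfac : (r - 1) * (r + 1) = 0 := by linear_combination hr2
    have e : ∀ i j, U i j = (Matrix.scalar (Fin 2) r) i j := by
      intro i j
      rw [hU]
    rcases mul_eq_zero.1 hfac with h | h
    · left
      have hr1 : r = 1 := by linear_combination h
      subst hr1
      exact ext' (by simp [e]) (by simp [e]) (by simp [e]) (by simp [e])
    · right
      have hr1 : r = -1 := by linear_combination h
      subst hr1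
      exact ext' (by simp [e]) (by simp [e]) (by simp [e]) (by simp [e])
  · rintro (rfl | rfl)
    · exact ⟨1, by simp, by simp⟩
    · refine ⟨-1, by simp, ?_⟩
      ext i j
      fin_cases i <;> fin_cases j <;> simp

lemma mk_eq_mk_iff (U V : SL(2, F)) :
    (QuotientGroup.mk U : PSL(2, F)) = QuotientGroup.mk V ↔ U = V ∨ U = -V := by
  have h : (QuotientGroup.mk U : PSL(2, F)) = QuotientGroup.mk V ↔
      (QuotientGroup.mk (U * V⁻¹) : PSL(2, F)) = 1 := by
    rw [QuotientGroup.mk_mul, QuotientGroup.mk_inv, mul_inv_eq_one]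
  rw [h, mk_eq_one_iff]
  constructor
  · rintro (h | h)
    · left; rwa [mul_inv_eq_one] at h
    · right
      rw [mul_inv_eq_iff_eq_mul] at h
      rw [h, neg_mul, one_mul]
  · rintro (h | h)
    · left; rw [h, mul_inv_cancel]
    · right; rw [h, neg_mul, mul_inv_cancel]

variable (h2 : (2 : F) ≠ 0)
include h2

/-- an element of `SL(2, F)` with square `1` is `1` or `-1` -/
lemma eq_of_sq_eq_one {W : SL(2, F)} (h : W * W = 1) : W = 1 ∨ W = -1 := by
  have hdet := det_eq W
  have e00 : W 0 0 * W 0 0 + W 0 1 * W 1 0 = 1 := by rw [← entry', h]; simp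
  have e01 : W 0 0 * W 0 1 + W 0 1 * W 1 1 = 0 := by rw [← entry', h]; simp
  have e10 : W 1 0 * W 0 0 + W 1 1 * W 1 0 = 0 := by rw [← entry', h]; simp
  have e11 : W 1 0 * W 0 1 + W 1 1 * W 1 1 = 1 := by rw [← entry', h]; simp
  have ht : W 0 0 + W 1 1 ≠ 0 := by
    intro e
    apply h2
    linear_combination -e00 - hdet + W 0 0 * e
  have hb : W 0 1 = 0 := by
    apply mul_left_cancel₀ ht
    linear_combination e01
  have hc : W 1 0 = 0 := by
    apply mul_left_cancel₀ ht
    linear_combination e10
  have had : W 0 0 = W 1 1 := by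
    apply mul_left_cancel₀ ht
    linear_combination e00 - e11
  have hfac : (W 1 1 - 1) * (W 1 1 + 1) = 0 := by
    rw [hb] at e11
    linear_combination e11
  rcases mul_eq_zero.1 hfac with h | h
  · left
    have h1 : W 1 1 = 1 := by linear_combination h
    exact ext' (by simpa [h1] using had) (by simpa using hb) (by simpa using hc) (by simpa using h1)
  · right
    have h1 : W 1 1 = -1 := by linear_combination h
    exact ext' (by simpa [h1] using had) (by simpa using hb) (by simpa using hc) (by simpa using h1)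

omit h2 in
/-- an element of `SL(2, F)` with square `-1` has trace zero -/
lemma tr_eq_zero_of_sq {W : SL(2, F)} (h : W * W = -1) : W 0 0 + W 1 1 = 0 := by
  have hdet := det_eq W
  have e00 : W 0 0 * W 0 0 + W 0 1 * W 1 0 = -1 := by rw [← entry', h]; simp
  have e01 : W 0 0 * W 0 1 + W 0 1 * W 1 1 = 0 := by rw [← entry', h]; simp
  have e11 : W 1 0 * W 0 1 + W 1 1 * W 1 1 = -1 := by rw [← entry', h]; simp
  by_contra ht
  have hb : W 0 1 = 0 := by
    apply mul_left_cancel₀ ht
    linear_combination e01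
  rw [hb] at hdet e00 e11
  have ha : W 0 0 = 0 := by
    apply mul_left_cancel₀ ht
    linear_combination e00 + hdet
  rw [ha] at hdet
  simp at hdet

/-- the fourth-root computation -/
lemma tr_sq_eq_two {U : SL(2, F)} (h4 : U * U * (U * U) = 1 ∨ U * U * (U * U) = -1)
    (h2' : ¬ (U * U = 1 ∨ U * U = -1)) : (U 0 0 + U 1 1) ^ 2 = 2 := by
  have hdet := det_eq U
  rcases h4 with h | h
  · exact absurd (eq_of_sq_eq_one h2 h) h2'
  · have := tr_eq_zero_of_sq h
    rw [entry', entry'] at this
    linear_combination this + 2 * hdet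

/-- square roots of an involution of `PSL(2, F)`: at most `u` and `u⁻¹` -/
lemma eq_or_eq_inv {u u0 : PSL(2, F)} (h : u * u = u0 * u0) (h1 : u0 * u0 ≠ 1)
    (h4 : u0 * u0 * (u0 * u0) = 1) : u = u0 ∨ u = u0⁻¹ := by
  obtain ⟨U, rfl⟩ := QuotientGroup.mk_surjective u
  obtain ⟨V, rfl⟩ := QuotientGroup.mk_surjective u0
  rw [← QuotientGroup.mk_mul] at h1 h4
  rw [← QuotientGroup.mk_mul, ← QuotientGroup.mk_mul, mk_eq_mk_iff] at h
  rw [← QuotientGroup.mk_mul, mk_eq_one_iff] at h4
  rw [Ne, mk_eq_one_iff] at h1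
  have hV := tr_sq_eq_two h2 h4 h1
  have hU : (U 0 0 + U 1 1) ^ 2 = 2 := by
    apply tr_sq_eq_two h2
    · rcases h with h | h
      · rw [h]; exact h4
      · rw [h, neg_mul_neg]; exact h4
    · rcases h with h | h
      · rw [h]; exact h1
      · rw [h]
        rintro (e | e)
        · exact h1 (Or.inr (by rw [← e, neg_neg]))
        · exact h1 (Or.inl (neg_injective e))
  have hdU := det_eq U
  have hdV := det_eq V
  set s := U 0 0 + U 1 1 with hs
  set t := V 0 0 + V 1 1 with ht
  have hs0 : s ≠ 0 := by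
    intro e
    rw [e] at hU
    apply h2
    rw [← hU]
    ring
  have hst : s = t ∨ s = -t := by
    have : (s - t) * (s + t) = 0 := by linear_combination hU - hV
    rcases mul_eq_zero.1 this with h | h
    · left; linear_combination h
    · right; linear_combination h
  rcases h with h | h
  · -- `U * U = V * V`, so `s • U = t • V`
    have hent : ∀ i j, U i 0 * U 0 j + U i 1 * U 1 j = V i 0 * V 0 j + V i 1 * V 1 j := by
      intro i j
      rw [← entry', ← entry', h]
    have e00 := hent 0 0
    have e01 := hent 0 1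
    have e10 := hent 1 0
    have e11 := hent 1 1
    have f00 : s * U 0 0 = t * V 0 0 := by rw [hs, ht]; linear_combination e00 + hdU - hdV
    have f01 : s * U 0 1 = t * V 0 1 := by rw [hs, ht]; linear_combination e01
    have f10 : s * U 1 0 = t * V 1 0 := by rw [hs, ht]; linear_combination e10
    have f11 : s * U 1 1 = t * V 1 1 := by rw [hs, ht]; linear_combination e11 + hdU - hdV
    left
    rw [mk_eq_mk_iff]
    rcases hst with e | e
    · left
      rw [← e] at f00 f01 f10 f11
      exact ext' (mul_left_cancel₀ hs0 f00) (mul_left_cancel₀ hs0 f01) (mul_left_cancel₀ hs0 f10)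
        (mul_left_cancel₀ hs0 f11)
    · right
      have ht' : t = -s := by linear_combination e
      rw [ht'] at f00 f01 f10 f11
      refine ext' ?_ ?_ ?_ ?_
      · rw [neg_apply']; apply mul_left_cancel₀ hs0; linear_combination f00
      · rw [neg_apply']; apply mul_left_cancel₀ hs0; linear_combination f01
      · rw [neg_apply']; apply mul_left_cancel₀ hs0; linear_combination f10
      · rw [neg_apply']; apply mul_left_cancel₀ hs0; linear_combination f11
  · -- `U * U = -(V * V)`, so `s • U = t • V⁻¹`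
    have hent : ∀ i j, U i 0 * U 0 j + U i 1 * U 1 j = -(V i 0 * V 0 j + V i 1 * V 1 j) := by
      intro i j
      rw [← entry', ← entry', h, neg_apply']
    have e00 := hent 0 0
    have e01 := hent 0 1
    have e10 := hent 1 0
    have e11 := hent 1 1
    have hinv : ∀ i j, V⁻¹ i j = (!![V 1 1, -(V 0 1); -(V 1 0), V 0 0] : Matrix _ _ F) i j := by
      intro i j
      rw [Matrix.SpecialLinearGroup.SL2_inv_expl]
      fin_cases i <;> fin_cases j <;> rfl
    have i00 : V⁻¹ 0 0 = V 1 1 := by rw [hinv]; rfl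
    have i01 : V⁻¹ 0 1 = -(V 0 1) := by rw [hinv]; rfl
    have i10 : V⁻¹ 1 0 = -(V 1 0) := by rw [hinv]; rfl
    have i11 : V⁻¹ 1 1 = V 0 0 := by rw [hinv]; rfl
    have hV' : (V 0 0 + V 1 1) ^ 2 = 2 := hV
    have f00 : s * U 0 0 = t * V⁻¹ 0 0 := by
      rw [i00, hs, ht]; linear_combination e00 + hdU + hdV - hV'
    have f01 : s * U 0 1 = t * V⁻¹ 0 1 := by rw [i01, hs, ht]; linear_combination e01
    have f10 : s * U 1 0 = t * V⁻¹ 1 0 := by rw [i10, hs, ht]; linear_combination e10
    have f11 : s * U 1 1 = t * V⁻¹ 1 1 := by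
      rw [i11, hs, ht]; linear_combination e11 + hdU + hdV - hV'
    right
    rw [← QuotientGroup.mk_inv, mk_eq_mk_iff]
    rcases hst with e | e
    · left
      rw [← e] at f00 f01 f10 f11
      exact ext' (mul_left_cancel₀ hs0 f00) (mul_left_cancel₀ hs0 f01) (mul_left_cancel₀ hs0 f10)
        (mul_left_cancel₀ hs0 f11)
    · right
      have ht' : t = -s := by linear_combination e
      rw [ht'] at f00 f01 f10 f11
      refine ext' ?_ ?_ ?_ ?_
      · rw [neg_apply']; apply mul_left_cancel₀ hs0; linear_combination f00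
      · rw [neg_apply']; apply mul_left_cancel₀ hs0; linear_combination f01
      · rw [neg_apply']; apply mul_left_cancel₀ hs0; linear_combination f10
      · rw [neg_apply']; apply mul_left_cancel₀ hs0; linear_combination f11

end field

/-- a finite-group counting lemma: if every nontrivial element of order dividing two has at most
two square roots, then at least a third of the fourth roots of one are square roots of one -/
theorem fourth_roots_le_of {G : Type*} [Group G] [Finite G]
    (h : ∀ v : G, v ^ 2 = 1 → v ≠ 1 → {u : G | u ^ 2 = v}.ncard ≤ 2) :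
    {u : G | u ^ 4 = 1}.ncard ≤ 3 * {u : G | u ^ 2 = 1}.ncard := by
  classical
  have hIfin : {u : G | u ^ 2 = 1}.Finite := Set.toFinite _
  have h1mem : (1 : G) ∈ hIfin.toFinset := by simp
  have hunion : {u : G | u ^ 4 = 1} =
      ⋃ v ∈ hIfin.toFinset, {u : G | u ^ 2 = v} := by
    ext u
    simp only [Set.mem_ofPred_eq, Set.mem_iUnion, exists_prop, Set.Finite.mem_toFinset]
    constructor
    · intro h
      refine ⟨u ^ 2, ?_, rfl⟩
      rw [← pow_mul]
      exact h
    · rintro ⟨v, hv, rfl⟩
      rw [← pow_mul] at hv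
      exact hv
  have hcardI : hIfin.toFinset.card = {u : G | u ^ 2 = 1}.ncard := (Set.ncard_eq_toFinset_card _ hIfin).symm
  have h1 : {u : G | u ^ 4 = 1}.ncard ≤ ∑ v ∈ hIfin.toFinset, {u : G | u ^ 2 = v}.ncard := by
    rw [hunion]
    exact Finset.set_ncard_biUnion_le _ _
  have h2 : ∑ v ∈ hIfin.toFinset, {u : G | u ^ 2 = v}.ncard = {u : G | u ^ 2 = 1}.ncard +
        ∑ v ∈ hIfin.toFinset.erase 1, {u : G | u ^ 2 = v}.ncard :=
        (Finset.add_sum_erase _ _ h1mem).symm
  have h3 : ∑ v ∈ hIfin.toFinset.erase 1, {u : G | u ^ 2 = v}.ncard ≤ 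
     ∑ _v ∈ hIfin.toFinset.erase 1, 2 := by
        apply Finset.sum_le_sum
        intro v hv
        refine h v ?_ (Finset.ne_of_mem_erase hv)
        have := Finset.mem_of_mem_erase hv
        rw [Set.Finite.mem_toFinset] at this
        exact this
  have h4 : ∑ _v ∈ hIfin.toFinset.erase 1, 2 ≤ 2 * {u : G | u ^ 2 = 1}.ncard := by
    rw [Finset.sum_const, smul_eq_mul, Finset.card_erase_of_mem h1mem, hcardI, mul_comm]
    exact Nat.mul_le_mul_left _ (Nat.sub_le _ _)
  rw [h2] at h1
  have h5 := h1.trans (Nat.add_le_add_left (h3.trans h4) _)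
  rw [show 3 * {u : G | u ^ 2 = 1}.ncard = {u : G | u ^ 2 = 1}.ncard + 2 * {u : G | u ^ 2 = 1}.ncard by ring]
  exact h5

/-- at least one third of the fourth roots of `1` in `PSL(2, F)` are square roots of `1` -/
theorem fourth_roots_le {F : Type*} [Field F] [Finite F] (h2 : (2 : F) ≠ 0) :
    {u : PSL(2, F) | u ^ 4 = 1}.ncard ≤ 3 * {u : PSL(2, F) | u ^ 2 = 1}.ncard := by
  have hfinS : Finite SL(2, F) := inferInstance
  have hfinP : Finite PSL(2, F) := Finite.of_surjective _ (QuotientGroup.mk_surjective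
    (s := Subgroup.center SL(2, F)))
  apply fourth_roots_le_of
  intro v hv2 hv1
  by_cases hne : {u : PSL(2, F) | u ^ 2 = v}.Nonempty
  · obtain ⟨u0, hu0⟩ := hne
    have hu0' : u0 * u0 = v := by rw [← pow_two]; exact hu0
    have hsub : {u : PSL(2, F) | u ^ 2 = v} ⊆ {u0, u0⁻¹} := by
      intro u hu
      have hu' : u * u = v := by rw [← pow_two]; exact hu
      apply eq_or_eq_inv h2
      · rw [hu', hu0']
      · rw [hu0']; exact hv1
      · rw [hu0', ← pow_two, hv2]
    refine (Set.ncard_le_ncard hsub (Set.toFinite _)).trans ?_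
    refine (Set.ncard_insert_le _ _).trans ?_
    rw [Set.ncard_singleton]
  · rw [Set.not_nonempty_iff_eq_empty] at hne
    rw [hne]
    simp

end Pool.Agent.Helper56.SL2
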