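import Mathlib
import Pool.Agent.Helper56.SL2Gen
import Pool.Agent.Helper56.PSL2Roots
import Pool.Agent.Helper56.FuchsianDefs

/-!
# A Fuchsian group isomorphic to `C₄ * F₂`
-/

namespace Pool.Agent.Helper56.Hecke

open Matrix MulAction Filter Topology
open scoped MatrixGroups UpperHalfPlane LinearAlgebra.Projectivization Pointwise
open Pool.Agent.Helper56.SL2 (smul_apply_zero smul_apply_one mk_eq_mk_iff_det entry' ext' det_eq)

/-- the square root of two -/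
noncomputable abbrev r2 : ℝ := √2

lemma r2_sq : r2 * r2 = 2 := Real.mul_self_sqrt (by norm_num)

lemma r2_pos : 0 < r2 := Real.sqrt_pos.2 (by norm_num)

/-- the elliptic generator -/
noncomputable def U : SL(2, ℝ) := ⟨!![0, -1; 1, r2], by simp [Matrix.det_fin_two_of]⟩

/-- powers of the first parabolic generator -/
noncomputable def A (n : ℤ) : SL(2, ℝ) :=
  ⟨!![1 + 4 * (n : ℝ), -(4 * r2 * n); 2 * r2 * n, 1 - 4 * n], by
    rw [Matrix.det_fin_two_of]
    linear_combination 8 * (n : ℝ) ^ 2 * r2_sq⟩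

/-- powers of the second parabolic generator -/
noncomputable def B (n : ℤ) : SL(2, ℝ) :=
  ⟨!![1 + 8 * (n : ℝ), -(16 * r2 * n); 2 * r2 * n, 1 - 8 * n], by
    rw [Matrix.det_fin_two_of]
    linear_combination 32 * (n : ℝ) ^ 2 * r2_sq⟩

lemma U00 : U 0 0 = 0 := rfl
lemma U01 : U 0 1 = -1 := rfl
lemma U10 : U 1 0 = 1 := rfl
lemma U11 : U 1 1 = r2 := rfl
lemma A00 (n : ℤ) : A n 0 0 = 1 + 4 * (n : ℝ) := rfl
lemma A01 (n : ℤ) : A n 0 1 = -(4 * r2 * n) := rfl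
lemma A10 (n : ℤ) : A n 1 0 = 2 * r2 * n := rfl
lemma A11 (n : ℤ) : A n 1 1 = 1 - 4 * (n : ℝ) := rfl
lemma B00 (n : ℤ) : B n 0 0 = 1 + 8 * (n : ℝ) := rfl
lemma B01 (n : ℤ) : B n 0 1 = -(16 * r2 * n) := rfl
lemma B10 (n : ℤ) : B n 1 0 = 2 * r2 * n := rfl
lemma B11 (n : ℤ) : B n 1 1 = 1 - 8 * (n : ℝ) := rfl

lemma A_mul (m n : ℤ) : A m * A n = A (m + n) := by
  apply ext'
  · rw [entry', A00, A00, A01, A10, A00]; push_cast
    linear_combination -8 * (m : ℝ) * n * r2_sq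
  · rw [entry', A00, A01, A01, A11, A01]; push_cast; ring
  · rw [entry', A10, A00, A11, A10, A10]; push_cast; ring
  · rw [entry', A10, A01, A11, A11, A11]; push_cast
    linear_combination -8 * (m : ℝ) * n * r2_sq

lemma B_mul (m n : ℤ) : B m * B n = B (m + n) := by
  apply ext'
  · rw [entry', B00, B00, B01, B10, B00]; push_cast
    linear_combination -32 * (m : ℝ) * n * r2_sq
  · rw [entry', B00, B01, B01, B11, B01]; push_cast; ring
  · rw [entry', B10, B00, B11, B10, B10]; push_cast; ring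
  · rw [entry', B10, B01, B11, B11, B11]; push_cast
    linear_combination -32 * (m : ℝ) * n * r2_sq

lemma A_zero : A 0 = 1 := by
  apply ext' <;> simp [A00, A01, A10, A11]

lemma B_zero : B 0 = 1 := by
  apply ext' <;> simp [B00, B01, B10, B11]

/-- the first parabolic one-parameter homomorphism -/
noncomputable def Ahom : Multiplicative ℤ →* SL(2, ℝ) where
  toFun n := A n.toAdd
  map_one' := A_zero
  map_mul' _ _ := (A_mul _ _).symm

/-- the second parabolic one-parameter homomorphism -/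
noncomputable def Bhom : Multiplicative ℤ →* SL(2, ℝ) where
  toFun n := B n.toAdd
  map_one' := B_zero
  map_mul' _ _ := (B_mul _ _).symm

lemma A_zpow (n : ℤ) : A 1 ^ n = A n := by
  have : Ahom (Multiplicative.ofAdd 1) ^ n = Ahom (Multiplicative.ofAdd n) := by
    rw [← map_zpow]
    congr 1
    rw [← ofAdd_zsmul]
    simp
  exact this

lemma B_zpow (n : ℤ) : B 1 ^ n = B n := by
  have : Bhom (Multiplicative.ofAdd 1) ^ n = Bhom (Multiplicative.ofAdd n) := by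
    rw [← map_zpow]
    congr 1
    rw [← ofAdd_zsmul]
    simp
  exact this

/-- the image in `PSL(2, ℝ)` -/
noncomputable abbrev cl (M : SL(2, ℝ)) : PSL(2, ℝ) := QuotientGroup.mk M

/-- the three generators -/
noncomputable def gen : Fin 3 → PSL(2, ℝ) := ![cl U, cl (A 1), cl (B 1)]

lemma gen0 : gen 0 = cl U := rfl
lemma gen1 : gen 1 = cl (A 1) := rfl
lemma gen2 : gen 2 = cl (B 1) := rfl

/-- the group `Γ` -/
noncomputable def Gam : Subgroup PSL(2, ℝ) := Subgroup.closure (Set.range gen)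

lemma U_sq00 : (U * U) 0 0 = -1 := by rw [entry', U00, U01, U10]; ring
lemma U_sq01 : (U * U) 0 1 = -r2 := by rw [entry', U00, U01, U11]; ring
lemma U_sq10 : (U * U) 1 0 = r2 := by rw [entry', U10, U00, U11]; ring
lemma U_sq11 : (U * U) 1 1 = 1 := by
  rw [entry', U10, U01, U11]; linear_combination r2_sq

lemma U_pow_four : U * U * (U * U) = -1 := by
  apply ext'
  · rw [entry', U_sq00, U_sq01, U_sq10]
    have : (-1 : SL(2, ℝ)) 0 0 = -1 := by simp
    rw [this]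
    linear_combination -r2_sq
  · rw [entry', U_sq00, U_sq01, U_sq11]
    have : (-1 : SL(2, ℝ)) 0 1 = 0 := by simp
    rw [this]
    ring
  · rw [entry', U_sq00, U_sq10, U_sq11]
    have : (-1 : SL(2, ℝ)) 1 0 = 0 := by simp
    rw [this]
    ring
  · rw [entry', U_sq01, U_sq10, U_sq11]
    have : (-1 : SL(2, ℝ)) 1 1 = -1 := by simp
    rw [this]
    linear_combination -r2_sq

lemma clU_pow_four : cl U ^ 4 = 1 := by
  have h : (U : SL(2, ℝ)) ^ 4 = -1 := by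
    rw [← U_pow_four, ← pow_two, ← pow_two, ← pow_mul]
  have : cl U ^ 4 = cl (U ^ 4) := rfl
  rw [this, h, SL2.mk_eq_one_iff]
  right; rfl

lemma clU_sq_ne : ¬ cl U ^ 2 = 1 := by
  have : cl U ^ 2 = cl (U * U) := by rw [← pow_two]; rfl
  rw [this, SL2.mk_eq_one_iff]
  rintro (h | h)
  · have h1 := congrArg (fun M : SL(2, ℝ) => M 1 0) h
    simp only [U_sq10] at h1
    have := r2_pos
    simp at h1
  · have h1 := congrArg (fun M : SL(2, ℝ) => M 1 0) h
    simp only [U_sq10] at h1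
    have := r2_pos
    simp at h1

lemma orderOf_clU : orderOf (cl U) = 4 := by
  have := orderOf_eq_prime_pow (p := 2) (n := 1) (x := cl U) (by simpa using clU_sq_ne)
    (by simpa using clU_pow_four)
  simpa using this

lemma cl_A_ne_one {n : ℤ} (hn : n ≠ 0) : cl (A n) ≠ 1 := by
  rw [Ne, SL2.mk_eq_one_iff]
  have hn' : (n : ℝ) ≠ 0 := by exact_mod_cast hn
  rintro (h | h)
  · have h1 := congrArg (fun M : SL(2, ℝ) => M 1 0) h
    simp only [A10] at h1
    simp [hn'] at h1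
  · have h1 := congrArg (fun M : SL(2, ℝ) => M 1 0) h
    simp only [A10] at h1
    simp [hn'] at h1

lemma cl_B_ne_one {n : ℤ} (hn : n ≠ 0) : cl (B n) ≠ 1 := by
  rw [Ne, SL2.mk_eq_one_iff]
  have hn' : (n : ℝ) ≠ 0 := by exact_mod_cast hn
  rintro (h | h)
  · have h1 := congrArg (fun M : SL(2, ℝ) => M 1 0) h
    simp only [B10] at h1
    simp [hn'] at h1
  · have h1 := congrArg (fun M : SL(2, ℝ) => M 1 0) h
    simp only [B10] at h1
    simp [hn'] at h1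

lemma cl_A_zpow (n : ℤ) : cl (A 1) ^ n = cl (A n) := by
  rw [← A_zpow n]; rfl

lemma cl_B_zpow (n : ℤ) : cl (B 1) ^ n = cl (B n) := by
  rw [← B_zpow n]; rfl

lemma orderOf_clA : orderOf (cl (A 1)) = 0 := by
  rw [orderOf_eq_zero_iff']
  intro n hn h
  have := cl_A_zpow (n : ℤ)
  rw [zpow_natCast, h] at this
  exact cl_A_ne_one (by exact_mod_cast hn.ne') this.symm

lemma orderOf_clB : orderOf (cl (B 1)) = 0 := by
  rw [orderOf_eq_zero_iff']
  intro n hn h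
  have := cl_B_zpow (n : ℤ)
  rw [zpow_natCast, h] at this
  exact cl_B_ne_one (by exact_mod_cast hn.ne') this.symm

/-! ### Ping-pong -/

/-- ping-pong sets on the real projective line -/
def Xset : Fin 3 → Set (ℙ ℝ (Fin 2 → ℝ)) :=
  ![{P | ∃ (v : Fin 2 → ℝ) (hv : v ≠ 0), P = Projectivization.mk ℝ v hv ∧ v 0 * v 1 < 0},
    {P | ∃ (v : Fin 2 → ℝ) (hv : v ≠ 0), P = Projectivization.mk ℝ v hv ∧
      2 * (v 0 - r2 * v 1) ^ 2 < v 1 ^ 2},
    {P | ∃ (v : Fin 2 → ℝ) (hv : v ≠ 0), P = Projectivization.mk ℝ v hv ∧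
      2 * (v 0 - 2 * r2 * v 1) ^ 2 < v 1 ^ 2}]

lemma mem_X0 {P : ℙ ℝ (Fin 2 → ℝ)} : P ∈ Xset 0 ↔ ∃ (v : Fin 2 → ℝ) (hv : v ≠ 0),
    P = Projectivization.mk ℝ v hv ∧ v 0 * v 1 < 0 := Iff.rfl

lemma mem_X1 {P : ℙ ℝ (Fin 2 → ℝ)} : P ∈ Xset 1 ↔ ∃ (v : Fin 2 → ℝ) (hv : v ≠ 0),
    P = Projectivization.mk ℝ v hv ∧ 2 * (v 0 - r2 * v 1) ^ 2 < v 1 ^ 2 := Iff.rfl

lemma mem_X2 {P : ℙ ℝ (Fin 2 → ℝ)} : P ∈ Xset 2 ↔ ∃ (v : Fin 2 → ℝ) (hv : v ≠ 0),
    P = Projectivization.mk ℝ v hv ∧ 2 * (v 0 - 2 * r2 * v 1) ^ 2 < v 1 ^ 2 := Iff.rfl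

lemma pos_of_X1 {a b : ℝ} (h : 2 * (a - r2 * b) ^ 2 < b ^ 2) : 0 < a * b := by
  have h1 := r2_sq
  have h2 := r2_pos
  have h3 : 0 < r2 * (a * b) := by nlinarith [sq_nonneg a, sq_nonneg b]
  exact (mul_pos_iff_of_pos_left h2).1 h3

lemma pos_of_X2 {a b : ℝ} (h : 2 * (a - 2 * r2 * b) ^ 2 < b ^ 2) : 0 < a * b := by
  have h1 := r2_sq
  have h2 := r2_pos
  have h3 : 0 < r2 * (a * b) := by nlinarith [sq_nonneg a, sq_nonneg b]
  exact (mul_pos_iff_of_pos_left h2).1 h3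

/-- for a quadratic form, the sign does not depend on the representative -/
lemma rep_scale {v w : Fin 2 → ℝ} (hv : v ≠ 0) (hw : w ≠ 0)
    (h : Projectivization.mk ℝ v hv = Projectivization.mk ℝ w hw) :
    ∃ c : ℝ, c ≠ 0 ∧ v 0 = c * w 0 ∧ v 1 = c * w 1 := by
  rw [Projectivization.mk_eq_mk_iff'] at h
  obtain ⟨c, hc⟩ := h
  refine ⟨c, ?_, ?_, ?_⟩
  · rintro rfl
    apply hv
    rw [← hc, zero_smul]
  · rw [← hc]; rfl
  · rw [← hc]; rfl

lemma disj : Pairwise (Function.onFun Disjoint Xset) := by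
  have d01 : Disjoint (Xset 0) (Xset 1) := by
    rw [Set.disjoint_left]
    rintro P ⟨v, hv, rfl, h⟩ ⟨w, hw, e, h'⟩
    obtain ⟨c, hc, e0, e1⟩ := rep_scale _ _ e
    have := pos_of_X1 h'
    rw [e0, e1] at h
    nlinarith [mul_pos (mul_self_pos.2 hc) this]
  have d02 : Disjoint (Xset 0) (Xset 2) := by
    rw [Set.disjoint_left]
    rintro P ⟨v, hv, rfl, h⟩ ⟨w, hw, e, h'⟩
    obtain ⟨c, hc, e0, e1⟩ := rep_scale _ _ e
    have := pos_of_X2 h'
    rw [e0, e1] at h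
    nlinarith [mul_pos (mul_self_pos.2 hc) this]
  have d12 : Disjoint (Xset 1) (Xset 2) := by
    rw [Set.disjoint_left]
    rintro P ⟨v, hv, rfl, h⟩ ⟨w, hw, e, h'⟩
    obtain ⟨c, hc, e0, e1⟩ := rep_scale _ _ e
    have hcc := mul_self_pos.2 hc
    rw [e0, e1] at h
    have h1 : c * c * (2 * (w 0 - r2 * w 1) ^ 2) < c * c * w 1 ^ 2 := by nlinarith
    have h2 : 2 * (w 0 - r2 * w 1) ^ 2 < w 1 ^ 2 := lt_of_mul_lt_mul_left h1 hcc.le
    nlinarith [r2_sq, sq_nonneg (r2 * (w 0 - 2 * r2 * w 1) + w 1)]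
  intro i j hij
  fin_cases i <;> fin_cases j
  · exact absurd rfl hij
  · exact d01
  · exact d02
  · exact d01.symm
  · exact absurd rfl hij
  · exact d12
  · exact d02.symm
  · exact d12.symm
  · exact absurd rfl hij

lemma nonempty (i : Fin 3) : (Xset i).Nonempty := by
  fin_cases i
  · exact ⟨_, ![1, -1], fun e => by simpa using congrFun e 0, rfl, by simp⟩
  · exact ⟨_, ![r2, 1], fun e => by simpa using congrFun e 1, rfl, by simp⟩
  · exact ⟨_, ![2 * r2, 1], fun e => by simpa using congrFun e 1, rfl, by simp⟩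

lemma cl_smul_mk (M : SL(2, ℝ)) {v : Fin 2 → ℝ} (hv : v ≠ 0) :
    cl M • Projectivization.mk ℝ v hv =
      Projectivization.mk ℝ (M • v) ((smul_ne_zero_iff_ne M).mpr hv) := rfl

/-- the elliptic element maps the positive quadrant to the negative ones -/
lemma U_ping {k : ℕ} (hk : k = 1 ∨ k = 2 ∨ k = 3) {v : Fin 2 → ℝ} (hv : v ≠ 0)
    (h : 0 < v 0 * v 1) : cl U ^ k • Projectivization.mk ℝ v hv ∈ Xset 0 := by
  have hr := r2_pos
  have hr2 := r2_sq
  rcases hk with rfl | rfl | rfl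
  · rw [pow_one, cl_smul_mk, mem_X0]
    refine ⟨_, _, rfl, ?_⟩
    rw [smul_apply_zero, smul_apply_one, U00, U01, U10, U11]
    nlinarith [mul_nonneg hr.le (sq_nonneg (v 1))]
  · have : cl U ^ 2 = cl (U * U) := by rw [← pow_two]; rfl
    rw [this, cl_smul_mk, mem_X0]
    refine ⟨_, _, rfl, ?_⟩
    rw [smul_apply_zero, smul_apply_one, U_sq00, U_sq01, U_sq10, U_sq11]
    nlinarith [mul_nonneg hr.le (sq_nonneg (v 1)), mul_nonneg hr.le (sq_nonneg (v 0))]
  · have : cl U ^ 3 = cl (U * U * U) := by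
      rw [← pow_three' U]; rfl
    rw [this, cl_smul_mk, mem_X0]
    refine ⟨_, _, rfl, ?_⟩
    rw [smul_apply_zero, smul_apply_one]
    rw [entry' (U * U) U, entry' (U * U) U, entry' (U * U) U, entry' (U * U) U]
    rw [U_sq00, U_sq01, U_sq10, U_sq11, U00, U01, U10, U11]
    nlinarith [mul_nonneg hr.le (sq_nonneg (v 0))]

lemma U_ping' (n : ℤ) (hn : cl U ^ n ≠ 1) {v : Fin 2 → ℝ} (hv : v ≠ 0)
    (h : 0 < v 0 * v 1) : cl U ^ n • Projectivization.mk ℝ v hv ∈ Xset 0 := by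
  have h4 : cl U ^ (4 : ℤ) = 1 := by exact_mod_cast clU_pow_four
  have hmod : cl U ^ n = cl U ^ (n % 4) := by
    conv_lhs => rw [← Int.emod_add_mul_ediv n 4, _root_.zpow_add, _root_.zpow_mul, h4, _root_.one_zpow, mul_one]
  have h0 : 0 ≤ n % 4 := Int.emod_nonneg _ (by norm_num)
  have h1 : n % 4 < 4 := Int.emod_lt_of_pos _ (by norm_num)
  obtain ⟨k, hk⟩ := Int.eq_ofNat_of_zero_le h0
  rw [hmod, hk] at hn ⊢
  rw [zpow_natCast] at hn ⊢
  rw [hk] at h1
  apply U_ping _ hv h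
  have hk0 : k ≠ 0 := by
    rintro rfl
    exact hn (pow_zero _)
  omega

/-- the key inequality for the parabolic elements -/
lemma para_ineq {w b : ℝ} (h : b ^ 2 < 2 * w ^ 2) {n : ℤ} (hn : n ≠ 0) :
    2 * w ^ 2 < (b + 2 * r2 * n * w) ^ 2 := by
  have hr2 := r2_sq
  set s := r2 * w with hs
  have hs2 : s ^ 2 = 2 * w ^ 2 := by rw [hs]; linear_combination w ^ 2 * hr2
  have hb : |b| < |s| := by
    rw [← sq_lt_sq, hs2]; exact h
  have hn1 : (1 : ℝ) ≤ |(n : ℝ)| := by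
    have : 1 ≤ |n| := Int.one_le_abs hn
    exact_mod_cast this
  have h1 : 2 * |s| ≤ |2 * (n : ℝ) * s| := by
    have h0 : |2 * (n : ℝ) * s| = 2 * |(n : ℝ)| * |s| := by rw [abs_mul, abs_mul, abs_two]
    rw [h0]
    nlinarith [abs_nonneg s]
  have h2 : |s| < |b + 2 * (n : ℝ) * s| := by
    have := abs_sub_abs_le_abs_sub (2 * (n : ℝ) * s) (-b)
    rw [abs_neg, sub_neg_eq_add, add_comm _ b] at this
    linarith
  have h3 := sq_lt_sq.2 h2
  calc 2 * w ^ 2 = s ^ 2 := hs2.symm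
    _ < (b + 2 * (n : ℝ) * s) ^ 2 := h3
    _ = _ := by rw [hs]; ring

lemma A_ping {n : ℤ} (hn : n ≠ 0) {v : Fin 2 → ℝ} (hv : v ≠ 0)
    (h : v 1 ^ 2 < 2 * (v 0 - r2 * v 1) ^ 2) :
    cl (A n) • Projectivization.mk ℝ v hv ∈ Xset 1 := by
  rw [cl_smul_mk, mem_X1]
  refine ⟨_, _, rfl, ?_⟩
  rw [smul_apply_zero, smul_apply_one, A00, A01, A10, A11]
  have key := para_ineq h hn
  have e1 : (1 + 4 * (n : ℝ)) * v 0 + -(4 * r2 * n) * v 1 -
      r2 * (2 * r2 * n * v 0 + (1 - 4 * n) * v 1) = v 0 - r2 * v 1 := by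
    linear_combination -2 * (n : ℝ) * v 0 * r2_sq
  have e2 : 2 * r2 * (n : ℝ) * v 0 + (1 - 4 * n) * v 1 =
      v 1 + 2 * r2 * n * (v 0 - r2 * v 1) := by
    linear_combination 2 * (n : ℝ) * v 1 * r2_sq
  rw [e1, e2]
  exact key

lemma B_ping {n : ℤ} (hn : n ≠ 0) {v : Fin 2 → ℝ} (hv : v ≠ 0)
    (h : v 1 ^ 2 < 2 * (v 0 - 2 * r2 * v 1) ^ 2) :
    cl (B n) • Projectivization.mk ℝ v hv ∈ Xset 2 := by
  rw [cl_smul_mk, mem_X2]
  refine ⟨_, _, rfl, ?_⟩
  rw [smul_apply_zero, smul_apply_one, B00, B01, B10, B11]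
  have key := para_ineq h hn
  have e1 : (1 + 8 * (n : ℝ)) * v 0 + -(16 * r2 * n) * v 1 -
      2 * r2 * (2 * r2 * n * v 0 + (1 - 8 * n) * v 1) = v 0 - 2 * r2 * v 1 := by
    linear_combination -4 * (n : ℝ) * v 0 * r2_sq
  have e2 : 2 * r2 * (n : ℝ) * v 0 + (1 - 8 * n) * v 1 =
      v 1 + 2 * r2 * n * (v 0 - 2 * r2 * v 1) := by
    linear_combination 4 * (n : ℝ) * v 1 * r2_sq
  rw [e1, e2]
  exact key

/-- the ping-pong inclusion -/
lemma ping {i j : Fin 3} (hij : i ≠ j) (h : Subgroup.zpowers (gen i)) (hh : h ≠ 1) :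
    (h : PSL(2, ℝ)) • Xset j ⊆ Xset i := by
  obtain ⟨h, n, rfl⟩ := h
  have hne : gen i ^ n ≠ 1 := fun e => hh (Subtype.ext e)
  rintro _ ⟨P, hP, rfl⟩
  change gen i ^ n • P ∈ Xset i
  have hr := r2_pos
  have hr2 := r2_sq
  fin_cases i <;> fin_cases j
  · exact absurd rfl hij
  · obtain ⟨v, hv, rfl, h'⟩ := hP
    exact U_ping' n hne hv (pos_of_X1 h')
  · obtain ⟨v, hv, rfl, h'⟩ := hP
    exact U_ping' n hne hv (pos_of_X2 h')
  · obtain ⟨v, hv, rfl, h'⟩ := hP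
    have hn : n ≠ 0 := by rintro rfl; exact hne (zpow_zero _)
    change cl (A 1) ^ n • _ ∈ Xset 1
    rw [cl_A_zpow]
    apply A_ping hn hv
    nlinarith [sq_nonneg (v 0), sq_nonneg (v 1), mul_neg_of_pos_of_neg hr h']
  · exact absurd rfl hij
  · obtain ⟨v, hv, rfl, h'⟩ := hP
    have hn : n ≠ 0 := by rintro rfl; exact hne (zpow_zero _)
    change cl (A 1) ^ n • _ ∈ Xset 1
    rw [cl_A_zpow]
    apply A_ping hn hv
    nlinarith [sq_nonneg (r2 * (v 0 - 2 * r2 * v 1) + v 1)]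
  · obtain ⟨v, hv, rfl, h'⟩ := hP
    have hn : n ≠ 0 := by rintro rfl; exact hne (zpow_zero _)
    change cl (B 1) ^ n • _ ∈ Xset 2
    rw [cl_B_zpow]
    apply B_ping hn hv
    nlinarith [sq_nonneg (v 0), sq_nonneg (v 1), mul_neg_of_pos_of_neg hr h']
  · obtain ⟨v, hv, rfl, h'⟩ := hP
    have hn : n ≠ 0 := by rintro rfl; exact hne (zpow_zero _)
    change cl (B 1) ^ n • _ ∈ Xset 2
    rw [cl_B_zpow]
    apply B_ping hn hv
    nlinarith [sq_nonneg (r2 * (v 0 - r2 * v 1) - v 1)]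
  · exact absurd rfl hij

/-- `Γ` is the free product of the cyclic groups generated by the three generators -/
theorem lift_injective :
    Function.Injective (Monoid.CoprodI.lift (fun i : Fin 3 => (Subgroup.zpowers (gen i)).subtype)) := by
  apply Monoid.CoprodI.lift_injective_of_ping_pong
    (f := fun i : Fin 3 => (Subgroup.zpowers (gen i)).subtype)
    (X := Xset) (hXnonempty := nonempty) (hXdisj := disj)
  · left
    simp
  · intro i j hij h hh
    exact ping hij h hh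

end Pool.Agent.Helper56.Hecke
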