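import Mathlib
import Pool.Agent.Helper56.HeckeGroup

/-!
# The universal property, discreteness and orbits of the Fuchsian group `C₄ * F₂`
-/

namespace Pool.Agent.Helper56.Hecke

open Matrix MulAction Filter Topology
open scoped MatrixGroups UpperHalfPlane LinearAlgebra.Projectivization Pointwise
open Pool.Agent.Helper56.SL2 (smul_apply_zero smul_apply_one mk_eq_mk_iff_det entry' ext' det_eq)

lemma gen_mem (i : Fin 3) : gen i ∈ Gam := Subgroup.subset_closure ⟨i, rfl⟩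

/-- the generators as elements of `Γ` -/
noncomputable def gg (i : Fin 3) : Gam := ⟨gen i, gen_mem i⟩

lemma orderOf_gen (i : Fin 3) : orderOf (gen i) = if i = 0 then 4 else 0 := by
  fin_cases i
  · exact orderOf_clU
  · exact orderOf_clA
  · exact orderOf_clB

theorem exists_hom {G : Type*} [Group G] (t : Fin 3 → G) (hu : t 0 ^ 4 = 1) :
    ∃ φ : Gam →* G, ∀ i, φ (gg i) = t i := by
  classical
  have hord : ∀ i : Fin 3, orderOf (t i) ∣
      orderOf (⟨gen i, Subgroup.mem_zpowers _⟩ : Subgroup.zpowers (gen i)) := by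
    intro i
    rw [Subgroup.orderOf_mk, orderOf_gen]
    by_cases hi : i = 0
    · subst hi
      rw [if_pos rfl]
      exact orderOf_dvd_of_pow_eq_one hu
    · rw [if_neg hi]
      exact dvd_zero _
  have hgen : ∀ i : Fin 3, ∀ y : Subgroup.zpowers (gen i),
      y ∈ Subgroup.zpowers (⟨gen i, Subgroup.mem_zpowers _⟩ : Subgroup.zpowers (gen i)) := by
    rintro i ⟨y, n, rfl⟩
    exact ⟨n, rfl⟩
  let homs : ∀ i : Fin 3, Subgroup.zpowers (gen i) →* G := fun i =>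
    monoidHomOfForallMemZpowers (hgen i) (hord i)
  let L := Monoid.CoprodI.lift (fun i : Fin 3 => (Subgroup.zpowers (gen i)).subtype)
  let o : ∀ _ : Fin 3, Monoid.CoprodI (fun i : Fin 3 => Subgroup.zpowers (gen i)) := fun i =>
    Monoid.CoprodI.of (M := fun i : Fin 3 => Subgroup.zpowers (gen i)) (i := i)
      ⟨gen i, Subgroup.mem_zpowers _⟩
  have hL : ∀ i : Fin 3, L (o i) = gen i := by
    intro i
    simp [L, o]
  have hle : Gam ≤ L.range := by
    rw [Gam, Subgroup.closure_le]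
    rintro _ ⟨i, rfl⟩
    exact ⟨_, hL i⟩
  let e := MonoidHom.ofInjective (f := L) lift_injective
  refine ⟨((Monoid.CoprodI.lift homs).comp e.symm.toMonoidHom).comp (Subgroup.inclusion hle), ?_⟩
  intro i
  have h1 : e.symm (Subgroup.inclusion hle (gg i)) = o i := by
    rw [MulEquiv.symm_apply_eq]
    apply Subtype.ext
    rw [MonoidHom.ofInjective_apply]
    exact (hL i).symm
  change Monoid.CoprodI.lift homs (e.symm (Subgroup.inclusion hle (gg i))) = t i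
  rw [h1, Monoid.CoprodI.lift_of]
  exact monoidHomOfForallMemZpowers_apply_gen _ _

lemma closure_gg : Subgroup.closure (Set.range gg) = ⊤ := by
  have h : Set.range gg = Subtype.val ⁻¹' (Set.range gen) := by
    ext ⟨y, hy⟩
    constructor
    · rintro ⟨i, hi⟩
      exact ⟨i, congrArg Subtype.val hi⟩
    · rintro ⟨i, hi⟩
      exact ⟨i, Subtype.ext hi⟩
  rw [h]
  exact Subgroup.closure_closure_coe_preimage

lemma hom_ext {G : Type*} [Group G] {φ ψ : Gam →* G} (h : ∀ i, φ (gg i) = ψ (gg i)) : φ = ψ := by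
  apply MonoidHom.eq_of_eqOn_dense closure_gg
  rintro _ ⟨i, rfl⟩
  exact h i

lemma gg0_pow : gg 0 ^ 4 = 1 := Subtype.ext clU_pow_four

/-- homomorphisms out of `Γ` are the triples whose first member has fourth power one -/
noncomputable def homEquiv (G : Type*) [Group G] :
    (Gam →* G) ≃ {u : G // u ^ 4 = 1} × (G × G) := by
  refine Equiv.ofBijective (fun φ => (⟨φ (gg 0), by rw [← map_pow, gg0_pow, map_one]⟩,
    (φ (gg 1), φ (gg 2)))) ⟨?_, ?_⟩
  · intro φ ψ h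
    simp only [Prod.mk.injEq, Subtype.mk.injEq] at h
    apply hom_ext
    intro i
    fin_cases i
    · exact h.1
    · exact h.2.1
    · exact h.2.2
  · rintro ⟨⟨u, hu⟩, g, h⟩
    obtain ⟨φ, hφ⟩ := exists_hom ![u, g, h] (by simpa using hu)
    refine ⟨φ, ?_⟩
    have h0 := hφ 0
    have h1 := hφ 1
    have h2 := hφ 2
    refine Prod.ext (Subtype.ext h0) (Prod.ext h1 h2)

lemma homEquiv_fst {G : Type*} [Group G] (φ : Gam →* G) :
    ((homEquiv G φ).1 : G) = φ (gg 0) := rfl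

lemma homEquiv_snd_fst {G : Type*} [Group G] (φ : Gam →* G) :
    (homEquiv G φ).2.1 = φ (gg 1) := rfl

lemma homEquiv_snd_snd {G : Type*} [Group G] (φ : Gam →* G) :
    (homEquiv G φ).2.2 = φ (gg 2) := rfl

/-! ### Discreteness -/

/-- the real numbers which are integers or integral multiples of the square root of two -/
def Ent (x : ℝ) : Prop := (∃ n : ℤ, x = n) ∨ (∃ n : ℤ, x = n * r2)

/-- matrices of the first type -/
def TypeI (M : SL(2, ℝ)) : Prop :=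
  (∃ n : ℤ, M 0 0 = n) ∧ (∃ n : ℤ, M 0 1 = n * r2) ∧ (∃ n : ℤ, M 1 0 = n * r2) ∧
    (∃ n : ℤ, M 1 1 = n)

/-- matrices of the second type -/
def TypeII (M : SL(2, ℝ)) : Prop :=
  (∃ n : ℤ, M 0 0 = n * r2) ∧ (∃ n : ℤ, M 0 1 = n) ∧ (∃ n : ℤ, M 1 0 = n) ∧
    (∃ n : ℤ, M 1 1 = n * r2)

lemma inv_entries (V : SL(2, ℝ)) : V⁻¹ 0 0 = V 1 1 ∧ V⁻¹ 0 1 = -(V 0 1) ∧
    V⁻¹ 1 0 = -(V 1 0) ∧ V⁻¹ 1 1 = V 0 0 := by
  have hinv : ∀ i j, V⁻¹ i j = (!![V 1 1, -(V 0 1); -(V 1 0), V 0 0] : Matrix _ _ ℝ) i j := by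
    intro i j
    rw [Matrix.SpecialLinearGroup.SL2_inv_expl]
    fin_cases i <;> fin_cases j <;> rfl
  exact ⟨hinv 0 0, hinv 0 1, hinv 1 0, hinv 1 1⟩

/-- the group of matrices of the first or second type -/
def bigGroup : Subgroup SL(2, ℝ) where
  carrier := {M | TypeI M ∨ TypeII M}
  one_mem' := by
    left
    exact ⟨⟨1, by simp⟩, ⟨0, by simp⟩, ⟨0, by simp⟩, ⟨1, by simp⟩⟩
  mul_mem' := by
    rintro M N (⟨⟨a, ha⟩, ⟨b, hb⟩, ⟨c, hc⟩, ⟨d, hd⟩⟩ | ⟨⟨a, ha⟩, ⟨b, hb⟩, ⟨c, hc⟩, ⟨d, hd⟩⟩)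
      (⟨⟨a', ha'⟩, ⟨b', hb'⟩, ⟨c', hc'⟩, ⟨d', hd'⟩⟩ | ⟨⟨a', ha'⟩, ⟨b', hb'⟩, ⟨c', hc'⟩, ⟨d', hd'⟩⟩)
    · left
      refine ⟨⟨a * a' + 2 * (b * c'), ?_⟩, ⟨a * b' + b * d', ?_⟩, ⟨c * a' + d * c', ?_⟩,
        ⟨2 * (c * b') + d * d', ?_⟩⟩
      · rw [entry', ha, hb, ha', hc']; push_cast; linear_combination (b : ℝ) * c' * r2_sq
      · rw [entry', ha, hb, hb', hd']; push_cast; ring
      · rw [entry', hc, hd, ha', hc']; push_cast; ring
      · rw [entry', hc, hd, hb', hd']; push_cast; linear_combination (c : ℝ) * b' * r2_sq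
    · right
      refine ⟨⟨a * a' + b * c', ?_⟩, ⟨a * b' + 2 * (b * d'), ?_⟩, ⟨2 * (c * a') + d * c', ?_⟩,
        ⟨c * b' + d * d', ?_⟩⟩
      · rw [entry', ha, hb, ha', hc']; push_cast; ring
      · rw [entry', ha, hb, hb', hd']; push_cast; linear_combination (b : ℝ) * d' * r2_sq
      · rw [entry', hc, hd, ha', hc']; push_cast; linear_combination (c : ℝ) * a' * r2_sq
      · rw [entry', hc, hd, hb', hd']; push_cast; ring
    · right
      refine ⟨⟨a * a' + b * c', ?_⟩, ⟨2 * (a * b') + b * d', ?_⟩, ⟨c * a' + 2 * (d * c'), ?_⟩,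
        ⟨c * b' + d * d', ?_⟩⟩
      · rw [entry', ha, hb, ha', hc']; push_cast; ring
      · rw [entry', ha, hb, hb', hd']; push_cast; linear_combination (a : ℝ) * b' * r2_sq
      · rw [entry', hc, hd, ha', hc']; push_cast; linear_combination (d : ℝ) * c' * r2_sq
      · rw [entry', hc, hd, hb', hd']; push_cast; ring
    · left
      refine ⟨⟨2 * (a * a') + b * c', ?_⟩, ⟨a * b' + b * d', ?_⟩, ⟨c * a' + d * c', ?_⟩,
        ⟨c * b' + 2 * (d * d'), ?_⟩⟩
      · rw [entry', ha, hb, ha', hc']; push_cast; linear_combination (a : ℝ) * a' * r2_sq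
      · rw [entry', ha, hb, hb', hd']; push_cast; ring
      · rw [entry', hc, hd, ha', hc']; push_cast; ring
      · rw [entry', hc, hd, hb', hd']; push_cast; linear_combination (d : ℝ) * d' * r2_sq
  inv_mem' := by
    intro M hM
    obtain ⟨i00, i01, i10, i11⟩ := inv_entries M
    rcases hM with ⟨⟨a, ha⟩, ⟨b, hb⟩, ⟨c, hc⟩, ⟨d, hd⟩⟩ | ⟨⟨a, ha⟩, ⟨b, hb⟩, ⟨c, hc⟩, ⟨d, hd⟩⟩
    · left
      exact ⟨⟨d, by rw [i00, hd]⟩, ⟨-b, by rw [i01, hb]; push_cast; ring⟩,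
        ⟨-c, by rw [i10, hc]; push_cast; ring⟩, ⟨a, by rw [i11, ha]⟩⟩
    · right
      exact ⟨⟨d, by rw [i00, hd]⟩, ⟨-b, by rw [i01, hb]; push_cast; ring⟩,
        ⟨-c, by rw [i10, hc]; push_cast; ring⟩, ⟨a, by rw [i11, ha]⟩⟩

lemma mem_big_iff (M : SL(2, ℝ)) : M ∈ bigGroup ↔ TypeI M ∨ TypeII M := Iff.rfl

lemma U_mem : U ∈ bigGroup :=
  Or.inr ⟨⟨0, by rw [U00]; simp⟩, ⟨-1, by rw [U01]; simp⟩, ⟨1, by rw [U10]; simp⟩,
    ⟨1, by rw [U11]; simp⟩⟩

lemma A_mem : A 1 ∈ bigGroup :=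
  Or.inl ⟨⟨5, by rw [A00]; norm_num⟩, ⟨-4, by rw [A01]; push_cast; ring⟩,
    ⟨2, by rw [A10]; push_cast; ring⟩, ⟨-3, by rw [A11]; norm_num⟩⟩

lemma B_mem : B 1 ∈ bigGroup :=
  Or.inl ⟨⟨9, by rw [B00]; norm_num⟩, ⟨-16, by rw [B01]; push_cast; ring⟩,
    ⟨2, by rw [B10]; push_cast; ring⟩, ⟨-7, by rw [B11]; norm_num⟩⟩

lemma neg_one_mem : (-1 : SL(2, ℝ)) ∈ bigGroup :=
  Or.inl ⟨⟨-1, by simp⟩, ⟨0, by simp⟩, ⟨0, by simp⟩, ⟨-1, by simp⟩⟩

lemma mem_big_of_mem_Gam {M : SL(2, ℝ)} (h : cl M ∈ Gam) : M ∈ bigGroup := by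
  have hle : Gam ≤ bigGroup.map (QuotientGroup.mk' (Subgroup.center SL(2, ℝ))) := by
    rw [Gam, Subgroup.closure_le]
    rintro _ ⟨i, rfl⟩
    fin_cases i
    · exact ⟨U, U_mem, rfl⟩
    · exact ⟨A 1, A_mem, rfl⟩
    · exact ⟨B 1, B_mem, rfl⟩
  obtain ⟨N, hN, e⟩ := hle h
  have e' : cl N = cl M := e
  rw [SL2.mk_eq_mk_iff] at e'
  rcases e' with rfl | e'
  · exact hN
  · have : M = -1 * N := by rw [e']; simp
    rw [this]
    exact bigGroup.mul_mem neg_one_mem hN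

lemma eq_one_of_near {M : SL(2, ℝ)} (hM : M ∈ bigGroup) (h00 : |M 0 0 - 1| < 1 / 4)
    (h01 : |M 0 1| < 1 / 4) (h10 : |M 1 0| < 1 / 4) (h11 : |M 1 1 - 1| < 1 / 4) : M = 1 := by
  have hr2 := r2_sq
  have hr := r2_pos
  have hr1 : 1.4 < r2 := by nlinarith
  have hr3 : r2 < 1.5 := by nlinarith
  have near1 : ∀ n : ℤ, |(n : ℝ) - 1| < 1 / 4 → n = 1 := by
    intro n hn
    rw [abs_lt] at hn
    have h1 : (0 : ℝ) < n := by linarith
    have h2 : (n : ℝ) < 2 := by linarith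
    have h1' : 0 < n := by exact_mod_cast h1
    have h2' : n < 2 := by exact_mod_cast h2
    omega
  have near1' : ∀ n : ℤ, ¬ |(n : ℝ) * r2 - 1| < 1 / 4 := by
    intro n hn
    rw [abs_lt] at hn
    rcases le_or_gt n 0 with h | h
    · have h' : (n : ℝ) ≤ 0 := by exact_mod_cast h
      nlinarith
    · have h' : (1 : ℝ) ≤ n := by exact_mod_cast h
      nlinarith
  have near0 : ∀ n : ℤ, |(n : ℝ)| < 1 / 4 → n = 0 := by
    intro n hn
    rw [abs_lt] at hn
    have h1 : (-1 : ℝ) < n := by linarith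
    have h2 : (n : ℝ) < 1 := by linarith
    have h1' : -1 < n := by exact_mod_cast h1
    have h2' : n < 1 := by exact_mod_cast h2
    omega
  have near0' : ∀ n : ℤ, |(n : ℝ) * r2| < 1 / 4 → n = 0 := by
    intro n hn
    rw [abs_lt] at hn
    rcases lt_trichotomy n 0 with h | h | h
    · have h' : (n : ℝ) ≤ -1 := by exact_mod_cast Int.le_sub_one_of_lt h
      nlinarith
    · exact h
    · have h' : (1 : ℝ) ≤ n := by exact_mod_cast h
      nlinarith
  rcases hM with ⟨⟨a, ha⟩, ⟨b, hb⟩, ⟨c, hc⟩, ⟨d, hd⟩⟩ | ⟨⟨a, ha⟩, ⟨b, hb⟩, ⟨c, hc⟩, ⟨d, hd⟩⟩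
  · rw [ha] at h00
    rw [hb] at h01
    rw [hc] at h10
    rw [hd] at h11
    have ea := near1 a h00
    have eb := near0' b h01
    have ec := near0' c h10
    have ed := near1 d h11
    subst ea eb ec ed
    apply ext'
    · rw [ha]; simp
    · rw [hb]; simp
    · rw [hc]; simp
    · rw [hd]; simp
  · rw [ha] at h00
    exact absurd h00 (near1' a)

theorem discrete : DiscreteTopology Gam := by
  apply discreteTopology_of_isOpen_singleton_one
  -- the open set upstairs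
  let V : Set SL(2, ℝ) := {M | |M 0 0 - 1| < 1 / 4 ∧ |M 0 1| < 1 / 4 ∧ |M 1 0| < 1 / 4 ∧
    |M 1 1 - 1| < 1 / 4}
  have hcont : ∀ i j, Continuous (fun M : SL(2, ℝ) => M i j) := by
    intro i j
    exact (continuous_subtype_val).matrix_elem i j
  have hV : IsOpen V := by
    exact (isOpen_lt ((hcont 0 0).sub continuous_const).abs continuous_const).and
      ((isOpen_lt (hcont 0 1).abs continuous_const).and
        ((isOpen_lt (hcont 1 0).abs continuous_const).and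
          (isOpen_lt ((hcont 1 1).sub continuous_const).abs continuous_const)))
  have hopen : IsOpen ((fun M : SL(2, ℝ) => cl M) '' V) :=
    QuotientGroup.isOpenMap_coe _ hV
  rw [isOpen_induced_iff]
  refine ⟨_, hopen, ?_⟩
  ext ⟨γ, hγ⟩
  simp only [Set.mem_preimage, Set.mem_singleton_iff]
  constructor
  · rintro ⟨M, ⟨h1, h2, h3, h4⟩, hM⟩
    have hM' : cl M = γ := hM
    have hmem : M ∈ bigGroup := mem_big_of_mem_Gam (by rw [hM']; exact hγ)
    have := eq_one_of_near hmem h1 h2 h3 h4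
    subst this
    exact Subtype.ext hM'.symm
  · intro h
    refine ⟨1, ⟨by simp, by simp, by simp, by simp⟩, ?_⟩
    have : γ = 1 := congrArg Subtype.val h
    rw [this]
    rfl

end Pool.Agent.Helper56.Hecke
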