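import Mathlib
import Pool.Agent.Helper56.HeckeHom

/-!
# Orbits of the Fuchsian group `C₄ * F₂` and an element of infinite order
-/

namespace Pool.Agent.Helper56.Hecke

open Matrix MulAction Filter Topology
open scoped MatrixGroups UpperHalfPlane LinearAlgebra.Projectivization Pointwise
open Pool.Agent.Helper56.SL2 (smul_apply_zero smul_apply_one mk_eq_mk_iff_det entry' ext' det_eq)
open Pool.Agent.Helper56.Fuchsian

lemma clA_mem (n : ℤ) : cl (A n) ∈ Gam := by
  rw [← cl_A_zpow]
  exact Gam.zpow_mem (gen_mem 1) n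

lemma clB_mem (n : ℤ) : cl (B n) ∈ Gam := by
  rw [← cl_B_zpow]
  exact Gam.zpow_mem (gen_mem 2) n

lemma A_inv_mul (m n : ℤ) : (A m)⁻¹ * A n = A (n - m) := by
  rw [inv_mul_eq_iff_eq_mul, A_mul]
  congr 1
  ring

lemma A_fix {k : ℤ} {z : ℍ} (h : A k • z = z) : k = 0 := by
  by_contra hk
  have hk' : (k : ℂ) ≠ 0 := by exact_mod_cast hk
  have h1 : ((A k • z : ℍ) : ℂ) = (z : ℂ) := congrArg (fun w : ℍ => (w : ℂ)) h
  rw [UpperHalfPlane.coe_specialLinearGroup_apply] at h1
  rw [A00, A01, A10, A11] at h1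
  simp only [Algebra.algebraMap_self, RingHom.id_apply] at h1
  have hr : ((r2 : ℝ) : ℂ) * ((r2 : ℝ) : ℂ) = 2 := by exact_mod_cast r2_sq
  have hr0 : ((r2 : ℝ) : ℂ) ≠ 0 := by exact_mod_cast r2_pos.ne'
  have hden : ((2 * r2 * (k : ℝ) : ℝ) : ℂ) * (z : ℂ) + ((1 - 4 * (k : ℝ) : ℝ) : ℂ) ≠ 0 := by
    intro e
    have him := congrArg Complex.im e
    simp at him
    rcases him with h | h
    · exact hk h
    · exact z.im_ne_zero h
  rw [div_eq_iff hden] at h1
  push_cast at h1
  have h2 : 2 * ((r2 : ℝ) : ℂ) * (k : ℂ) * (((z : ℂ) - ((r2 : ℝ) : ℂ)) ^ 2) = 0 := by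
    linear_combination -h1 + (2 * ((r2 : ℝ) : ℂ) * (k : ℂ) - 4 * k * z) * hr
  have h3 : ((z : ℂ) - ((r2 : ℝ) : ℂ)) ^ 2 = 0 := by
    rcases mul_eq_zero.1 h2 with h | h
    · exfalso
      rcases mul_eq_zero.1 h with h | h
      · rcases mul_eq_zero.1 h with h | h
        · norm_num at h
        · exact hr0 h
      · exact hk' h
    · exact h
  have h4 : (z : ℂ) = ((r2 : ℝ) : ℂ) := by
    have := pow_eq_zero_iff (two_ne_zero) |>.1 h3
    linear_combination this
  have h5 := congrArg Complex.im h4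
  rw [Complex.ofReal_im] at h5
  exact z.im_ne_zero h5

theorem orbit_plane (z : ℍ) :
    {w : ℍ | ∃ g : SL(2, ℝ), (QuotientGroup.mk g : PSL(2, ℝ)) ∈ Gam ∧ g • z = w}.Infinite := by
  apply Set.infinite_of_injective_forall_mem (f := fun n : ℤ => A n • z)
  · intro m n h
    have h1 : A (n - m) • z = z := by
      rw [← A_inv_mul, mul_smul, ← show A m • z = A n • z from h, inv_smul_smul]
    have := A_fix h1
    omega
  · intro n
    exact ⟨A n, clA_mem n, rfl⟩

theorem orbit_boundary (P : ℙ ℝ (Fin 2 → ℝ)) :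
    {Q : ℙ ℝ (Fin 2 → ℝ) | ∃ γ : PSL(2, ℝ), γ ∈ Gam ∧ γ • P = Q}.Infinite := by
  induction P using Projectivization.ind with
  | h v hv =>
    have hr := r2_pos
    have hr2 := r2_sq
    by_cases h : v 0 - r2 * v 1 = 0
    · -- use `B`
      have h' : v 0 - 2 * r2 * v 1 ≠ 0 := by
        intro e
        apply hv
        have h1 : r2 * v 1 = 0 := by linear_combination h - e
        have h2 : v 1 = 0 := (mul_eq_zero.1 h1).resolve_left hr.ne'
        have h3 : v 0 = 0 := by rw [h2] at h; linear_combination h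
        ext i
        fin_cases i
        · exact h3
        · exact h2
      apply Set.infinite_of_injective_forall_mem
        (f := fun n : ℤ => cl (B n) • Projectivization.mk ℝ v hv)
      · intro m n e
        simp only [cl_smul_mk] at e
        rw [mk_eq_mk_iff_det, smul_apply_zero, smul_apply_one, smul_apply_zero, smul_apply_one]
          at e
        simp only [B00, B01, B10, B11] at e
        have h2 : 2 * r2 * (v 0 - 2 * r2 * v 1) ^ 2 * ((m : ℝ) - n) = 0 := by
          linear_combination -e + (8 * v 0 * v 1 * (n - m) + 8 * r2 * v 1 ^ 2 * (m - n)) * hr2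
        have h3 : (m : ℝ) - n = 0 := by
          refine (mul_eq_zero.1 h2).resolve_left ?_
          exact mul_ne_zero (mul_ne_zero two_ne_zero hr.ne') (pow_ne_zero 2 h')
        have h4 : (m : ℝ) = n := by linear_combination h3
        exact_mod_cast h4
      · intro n
        exact ⟨cl (B n), clB_mem n, rfl⟩
    · apply Set.infinite_of_injective_forall_mem
        (f := fun n : ℤ => cl (A n) • Projectivization.mk ℝ v hv)
      · intro m n e
        simp only [cl_smul_mk] at e
        rw [mk_eq_mk_iff_det, smul_apply_zero, smul_apply_one, smul_apply_zero, smul_apply_one]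
          at e
        simp only [A00, A01, A10, A11] at e
        have h2 : 2 * r2 * (v 0 - r2 * v 1) ^ 2 * ((m : ℝ) - n) = 0 := by
          linear_combination -e + (4 * v 0 * v 1 * (n - m) + 2 * r2 * v 1 ^ 2 * (m - n)) * hr2
        have h3 : (m : ℝ) - n = 0 := by
          refine (mul_eq_zero.1 h2).resolve_left ?_
          exact mul_ne_zero (mul_ne_zero two_ne_zero hr.ne') (pow_ne_zero 2 h)
        have h4 : (m : ℝ) = n := by linear_combination h3
        exact_mod_cast h4
      · intro n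
        exact ⟨cl (A n), clA_mem n, rfl⟩

theorem isFuchsian : IsFuchsian Gam where
  fg := ⟨(Set.toFinite (Set.range gen)).toFinset, by rw [Set.Finite.coe_toFinset]; rfl⟩
  discrete := discrete
  orbit_plane := orbit_plane
  orbit_boundary := orbit_boundary

/-! ### An element of infinite order -/

/-- sign pattern of the powers of the negative of the matrix below -/
def Pat (M : SL(2, ℝ)) : Prop := 0 < M 0 0 ∧ M 0 1 < 0 ∧ M 1 0 < 0 ∧ 0 < M 1 1

lemma Pat.mul {M N : SL(2, ℝ)} (hM : Pat M) (hN : Pat N) : Pat (M * N) := by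
  obtain ⟨a, b, c, d⟩ := hM
  obtain ⟨a', b', c', d'⟩ := hN
  refine ⟨?_, ?_, ?_, ?_⟩
  · rw [entry']; nlinarith [mul_pos a a', mul_pos_of_neg_of_neg b c']
  · rw [entry']; nlinarith [mul_neg_of_pos_of_neg a b', mul_neg_of_neg_of_pos b d']
  · rw [entry']; nlinarith [mul_neg_of_neg_of_pos c a', mul_neg_of_pos_of_neg d c']
  · rw [entry']; nlinarith [mul_pos_of_neg_of_neg c b', mul_pos d d']

/-- `U² A U² A⁻¹` -/
noncomputable def W : SL(2, ℝ) := U * U * (A 1) * (U * U) * (A (-1))

lemma W_pat : Pat (-W) := by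
  have hr := r2_pos
  have hr2 := r2_sq
  have e00 : (U * U * (A 1)) 0 0 = -9 := by
    rw [entry', U_sq00, U_sq01, A00, A10]; push_cast; linear_combination -2 * hr2
  have e01 : (U * U * (A 1)) 0 1 = 7 * r2 := by
    rw [entry', U_sq00, U_sq01, A01, A11]; push_cast; ring
  have e10 : (U * U * (A 1)) 1 0 = 7 * r2 := by
    rw [entry', U_sq10, U_sq11, A00, A10]; push_cast; ring
  have e11 : (U * U * (A 1)) 1 1 = -11 := by
    rw [entry', U_sq10, U_sq11, A01, A11]; push_cast; linear_combination -4 * hr2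
  have f00 : (U * U * (A 1) * (U * U)) 0 0 = 23 := by
    rw [entry', e00, e01, U_sq00, U_sq10]; linear_combination 7 * hr2
  have f01 : (U * U * (A 1) * (U * U)) 0 1 = 16 * r2 := by
    rw [entry', e00, e01, U_sq01, U_sq11]; ring
  have f10 : (U * U * (A 1) * (U * U)) 1 0 = -18 * r2 := by
    rw [entry', e10, e11, U_sq00, U_sq10]; ring
  have f11 : (U * U * (A 1) * (U * U)) 1 1 = -25 := by
    rw [entry', e10, e11, U_sq01, U_sq11]; linear_combination -7 * hr2
  have g00 : W 0 0 = -133 := by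
    rw [W, entry', f00, f01, A00, A10]; push_cast; linear_combination -32 * hr2
  have g01 : W 0 1 = 172 * r2 := by
    rw [W, entry', f00, f01, A01, A11]; push_cast; ring
  have g10 : W 1 0 = 104 * r2 := by
    rw [W, entry', f10, f11, A00, A10]; push_cast; ring
  have g11 : W 1 1 = -269 := by
    rw [W, entry', f10, f11, A01, A11]; push_cast; linear_combination -72 * hr2
  refine ⟨?_, ?_, ?_, ?_⟩
  · rw [SL2.neg_apply', g00]; norm_num
  · rw [SL2.neg_apply', g01]; linarith
  · rw [SL2.neg_apply', g10]; linarith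
  · rw [SL2.neg_apply', g11]; norm_num

lemma W_pow_pat (n : ℕ) (hn : 0 < n) : Pat ((-W) ^ n) := by
  induction n with
  | zero => exact absurd hn (lt_irrefl 0)
  | succ n ih =>
    rcases Nat.eq_zero_or_pos n with h | h
    · subst h
      simpa using W_pat
    · rw [pow_succ]
      exact (ih h).mul W_pat

/-- the element `γ = x² a x² a⁻¹` of `Γ` -/
noncomputable def gam : Gam := gg 0 ^ 2 * gg 1 * gg 0 ^ 2 * (gg 1)⁻¹

lemma gam_coe : (gam : PSL(2, ℝ)) = cl W := by
  have hA : (cl (A 1))⁻¹ = cl (A (-1)) := by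
    rw [← cl_A_zpow (-1), _root_.zpow_neg_one]
  have h1 : (gam : PSL(2, ℝ)) = cl U ^ 2 * cl (A 1) * cl U ^ 2 * (cl (A 1))⁻¹ := rfl
  rw [h1, hA, pow_two]
  rfl

theorem gam_pow_ne_one (n : ℕ) (hn : 0 < n) : gam ^ n ≠ 1 := by
  intro h
  have h1 : (gam : PSL(2, ℝ)) ^ n = 1 := by
    have := congrArg Subtype.val h
    simpa using this
  rw [gam_coe] at h1
  have h2 : cl W = cl (-W) := by
    rw [SL2.mk_eq_mk_iff]
    right
    rw [neg_neg]
  rw [h2] at h1
  have h3 : cl ((-W) ^ n) = 1 := h1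
  rw [SL2.mk_eq_one_iff] at h3
  have hp := (W_pow_pat n hn).2.1
  rcases h3 with h | h
  · rw [h] at hp
    simp at hp
  · rw [h] at hp
    simp at hp

end Pool.Agent.Helper56.Hecke
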