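import Mathlib
import Pool.Agent.Helper56.SL2Gen

/-!
# Counting pairs in `SL(2, p)` which fail to generate
-/

namespace Pool.Agent.Helper56.SL2

open Matrix MulAction
open scoped MatrixGroups LinearAlgebra.Projectivization

variable {p : ℕ} [Fact p.Prime]

/-- the trace -/
def tr (g : SL(2, ZMod p)) : ZMod p := g 0 0 + g 1 1

lemma card_lower : (p - 1) * p ^ 2 ≤ Nat.card SL(2, ZMod p) := by
  have hcard : Nat.card ((ZMod p)ˣ × ZMod p × ZMod p) = (p - 1) * p ^ 2 := by
    rw [Nat.card_prod, Nat.card_prod, Nat.card_zmod, Nat.card_eq_fintype_card,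
      ZMod.card_units]
    ring
  rw [← hcard]
  have : Finite SL(2, ZMod p) := inferInstance
  apply Nat.card_le_card_of_injective
    (fun x : (ZMod p)ˣ × ZMod p × ZMod p =>
      (⟨!![(x.1 : ZMod p), x.2.1; x.2.2, (x.1⁻¹ : (ZMod p)ˣ) * (1 + x.2.1 * x.2.2)], by
        rw [Matrix.det_fin_two_of, ← mul_assoc, Units.mul_inv]
        ring⟩ : SL(2, ZMod p)))
  rintro ⟨a, b, c⟩ ⟨a', b', c'⟩ h
  have h1 := congrArg Subtype.val h
  have h00 : (a : ZMod p) = a' := congrFun (congrFun h1 0) 0
  have h01 : b = b' := congrFun (congrFun h1 0) 1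
  have h10 : c = c' := congrFun (congrFun h1 1) 0
  exact Prod.ext (Units.ext h00) (Prod.ext h01 h10)

lemma ncard_tr_le (t : ZMod p) : {g : SL(2, ZMod p) | tr g = t}.ncard ≤ 2 * p ^ 2 := by
  classical
  rw [← Nat.card_coe_set_eq]
  have hcard : Nat.card ((ZMod p × ZMod p) ⊕ (ZMod p × ZMod p)) = 2 * p ^ 2 := by
    rw [Nat.card_sum, Nat.card_prod, Nat.card_zmod]
    ring
  rw [← hcard]
  apply Nat.card_le_card_of_injective
    (fun x : {g : SL(2, ZMod p) | tr g = t} =>
      if x.1 0 1 = 0 then (Sum.inr (x.1 0 0, x.1 1 0) : (ZMod p × ZMod p) ⊕ (ZMod p × ZMod p))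
      else Sum.inl (x.1 0 0, x.1 0 1))
  rintro ⟨g, hg⟩ ⟨g', hg'⟩ h
  have hd := det_eq g
  have hd' := det_eq g'
  simp only [tr, Set.mem_ofPred_eq] at hg hg'
  simp only at h
  apply Subtype.ext
  by_cases h0 : g 0 1 = 0 <;> by_cases h0' : g' 0 1 = 0
  · rw [if_pos h0, if_pos h0'] at h
    simp only [Sum.inr.injEq, Prod.mk.injEq] at h
    obtain ⟨h1, h2⟩ := h
    ext i j
    fin_cases i <;> fin_cases j
    · exact h1
    · simpa [h0] using h0'.symm
    · exact h2
    · simp only [Fin.mk_one]
      linear_combination hg - hg' - h1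
  · rw [if_pos h0, if_neg h0'] at h
    simp at h
  · rw [if_neg h0, if_pos h0'] at h
    simp at h
  · rw [if_neg h0, if_neg h0'] at h
    simp only [Sum.inl.injEq, Prod.mk.injEq] at h
    obtain ⟨h1, h2⟩ := h
    have h3 : g 1 1 = g' 1 1 := by linear_combination hg - hg' - h1
    ext i j
    fin_cases i <;> fin_cases j
    · exact h1
    · exact h2
    · simp only [Fin.mk_one, Fin.zero_eta]
      apply mul_left_cancel₀ h0
      rw [h1, h3] at hd
      rw [h2] at hd ⊢
      linear_combination hd' - hd
    · exact h3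

/-- if `g ^ m = 1` then the trace is a sum `l + l⁻¹` with `l ^ m = 1` -/
lemma tr_of_pow_eq_one {m : ℕ} (g : SL(2, ZMod p)) (hg : g ^ m = 1) :
    ∃ l : KK p, l ^ m = 1 ∧ algebraMap (ZMod p) (KK p) (tr g) = l + l⁻¹ := by
  let G := Matrix.SpecialLinearGroup.map (algebraMap (ZMod p) (KK p)) g
  have hG : G ^ m = 1 := by
    change (Matrix.SpecialLinearGroup.map (algebraMap (ZMod p) (KK p)) g) ^ m = 1
    rw [← map_pow, hg, map_one]
  have hdet := det_eq G
  -- an eigenvalue
  obtain ⟨l, hl⟩ : ∃ l : KK p, l ^ 2 - (G 0 0 + G 1 1) * l + 1 = 0 := by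
    have hdeg : (Polynomial.X ^ 2 - Polynomial.C (G 0 0 + G 1 1) * Polynomial.X + 1 :
        Polynomial (KK p)).degree ≠ 0 := by
      have : (Polynomial.X ^ 2 - Polynomial.C (G 0 0 + G 1 1) * Polynomial.X + 1 :
        Polynomial (KK p)).degree = 2 := by compute_degree!
      rw [this]
      norm_num
    obtain ⟨l, hl⟩ := IsAlgClosed.exists_root _ hdeg
    refine ⟨l, ?_⟩
    simpa [Polynomial.IsRoot] using hl
  have hl0 : l ≠ 0 := by
    rintro rfl
    simp at hl
  -- an eigenvector
  obtain ⟨v, hv0, hv⟩ : ∃ v : Fin 2 → KK p, v ≠ 0 ∧ G • v = l • v := by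
    by_cases hb : G 0 1 = 0
    · by_cases ha : G 0 0 = l
      · by_cases hc : G 1 0 = 0
        · refine ⟨![1, 0], fun e => by simpa using congrFun e 0, ?_⟩
          ext i
          fin_cases i
          · simp only [Fin.zero_eta]
            rw [smul_apply_zero]
            simp [ha]
          · simp only [Fin.mk_one]
            rw [smul_apply_one]
            simp [hc]
        · refine ⟨![l - G 1 1, G 1 0], fun e => hc (by simpa using congrFun e 1), ?_⟩
          ext i
          fin_cases i
          · simp only [Fin.zero_eta]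
            rw [smul_apply_zero]
            simp [hb, ha]
          · simp only [Fin.mk_one]
            rw [smul_apply_one]
            simp
            ring
      · -- then `G 1 1 = l`
        have hd : G 1 1 = l := by
          have h1 : (l - G 0 0) * (l - G 1 1) = 0 := by
            rw [hb] at hdet
            linear_combination hl + hdet
          rcases mul_eq_zero.1 h1 with h | h
          · exact absurd (by linear_combination -h) ha
          · linear_combination -h
        refine ⟨![0, 1], fun e => by simpa using congrFun e 1, ?_⟩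
        ext i
        fin_cases i
        · simp only [Fin.zero_eta]
          rw [smul_apply_zero]
          simp [hb]
        · simp only [Fin.mk_one]
          rw [smul_apply_one]
          simp [hd]
    · refine ⟨![G 0 1, l - G 0 0], fun e => hb (by simpa using congrFun e 0), ?_⟩
      ext i
      fin_cases i
      · simp only [Fin.zero_eta]
        rw [smul_apply_zero]
        simp
        ring
      · simp only [Fin.mk_one]
        rw [smul_apply_one]
        simp
        linear_combination -hl - hdet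
  have hpow : ∀ n : ℕ, G ^ n • v = l ^ n • v := by
    intro n
    induction n with
    | zero => simp
    | succ n ih =>
      rw [pow_succ', mul_smul, ih, smul_comm, hv, smul_smul, ← pow_succ]
  have h1 := hpow m
  rw [hG, one_smul] at h1
  refine ⟨l, ?_, ?_⟩
  · obtain ⟨i, hi⟩ : ∃ i, v i ≠ 0 := by
      by_contra hcon
      push Not at hcon
      exact hv0 (funext hcon)
    have h2 := congrFun h1 i
    rw [Pi.smul_apply, smul_eq_mul] at h2
    exact (mul_right_cancel₀ hi (by rw [one_mul]; exact h2)).symm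
  · change algebraMap (ZMod p) (KK p) (g 0 0 + g 1 1) = l + l⁻¹
    rw [map_add]
    change G 0 0 + G 1 1 = l + l⁻¹
    field_simp
    linear_combination -hl

/-- the exponent used below -/
def mm : ℕ := 2 * Nat.factorial 60

lemma pow_mm_eq_one (g : SL(2, ZMod p)) (k : ℕ) (hk : 0 < k) (hk' : k ≤ 60)
    (h : rho p g ^ k = 1) : g ^ mm = 1 := by
  rw [← map_pow] at h
  have h2 : g ^ (2 * k) = 1 := by
    rcases eq_of_rho_eq_one _ h with h | h
    · rw [mul_comm, pow_mul, h, one_pow]
    · rw [mul_comm, pow_mul, h]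
      ext i j
      fin_cases i <;> fin_cases j <;> simp [pow_two]
  obtain ⟨c, hc⟩ : 2 * k ∣ mm := Nat.mul_dvd_mul_left 2 (Nat.dvd_factorial hk hk')
  rw [hc, pow_mul, h2, one_pow]

/-- the exceptional traces -/
def badTraces (p : ℕ) [Fact p.Prime] : Set (ZMod p) :=
  {t | t = 0 ∨ t = 2 ∨ t = -2 ∨ ∃ l : KK p, l ^ mm = 1 ∧ algebraMap (ZMod p) (KK p) t = l + l⁻¹}

lemma mm_pos : 0 < mm := by
  unfold mm
  positivity

lemma ncard_badTraces : (badTraces p).ncard ≤ mm + 3 := by
  classical
  have hsub : badTraces p ⊆ ({0, 2, -2} : Set (ZMod p)) ∪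
      {t | ∃ l : KK p, l ^ mm = 1 ∧ algebraMap (ZMod p) (KK p) t = l + l⁻¹} := by
    rintro t (h | h | h | h)
    · left; simp [h]
    · left; simp [h]
    · left; simp [h]
    · right; exact h
  have h1 : ({0, 2, -2} : Set (ZMod p)).ncard ≤ 3 := by
    calc ({0, 2, -2} : Set (ZMod p)).ncard ≤ ({2, -2} : Set (ZMod p)).ncard + 1 :=
          Set.ncard_insert_le _ _
      _ ≤ (({-2} : Set (ZMod p)).ncard + 1) + 1 := by
          gcongr
          exact Set.ncard_insert_le _ _
      _ = 3 := by rw [Set.ncard_singleton]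
  have h2 : {t | ∃ l : KK p, l ^ mm = 1 ∧ algebraMap (ZMod p) (KK p) t = l + l⁻¹}.ncard ≤ mm := by
    have hfin : {l : KK p | l ^ mm = 1} = (Polynomial.nthRoots mm (1 : KK p)).toFinset := by
      ext l
      simp [Polynomial.mem_nthRoots mm_pos]
    have hcard : {l : KK p | l ^ mm = 1}.ncard ≤ mm := by
      rw [hfin, Set.ncard_coe_finset]
      exact (Multiset.toFinset_card_le _).trans (Polynomial.card_nthRoots mm 1)
    have hfin' : {l : KK p | l ^ mm = 1}.Finite := by
      rw [hfin]
      exact Finset.finite_toSet _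
    refine le_trans ?_ hcard
    have hchoose : ∀ t ∈ {t | ∃ l : KK p, l ^ mm = 1 ∧
        algebraMap (ZMod p) (KK p) t = l + l⁻¹}, ∃ l : KK p, l ^ mm = 1 ∧
        algebraMap (ZMod p) (KK p) t = l + l⁻¹ := fun t ht => ht
    choose! f hf1 hf2 using hchoose
    refine Set.ncard_le_ncard_of_injOn f ?_ ?_ hfin'
    · intro t ht
      exact hf1 t ht
    · intro t ht t' ht' e
      apply (algebraMap (ZMod p) (KK p)).injective
      rw [hf2 t ht, hf2 t' ht', e]
  calc (badTraces p).ncard ≤ _ := Set.ncard_le_ncard hsub (Set.toFinite _)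
    _ ≤ _ := Set.ncard_union_le _ _
    _ ≤ mm + 3 := by omega

/-- the exceptional elements -/
def badElts (p : ℕ) [Fact p.Prime] : Set SL(2, ZMod p) := {g | tr g ∈ badTraces p}

lemma ncard_badElts : (badElts p).ncard ≤ (mm + 3) * (2 * p ^ 2) := by
  classical
  have hfin : (badTraces p).Finite := Set.toFinite _
  have : badElts p = ⋃ t ∈ hfin.toFinset, {g : SL(2, ZMod p) | tr g = t} := by
    ext g
    simp [badElts]
  rw [this]
  calc (⋃ t ∈ hfin.toFinset, {g : SL(2, ZMod p) | tr g = t}).ncard
      ≤ ∑ t ∈ hfin.toFinset, {g : SL(2, ZMod p) | tr g = t}.ncard := by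
        exact Finset.set_ncard_biUnion_le _ _
    _ ≤ ∑ _t ∈ hfin.toFinset, 2 * p ^ 2 := Finset.sum_le_sum fun t _ => ncard_tr_le t
    _ = (badTraces p).ncard * (2 * p ^ 2) := by
        rw [Finset.sum_const, smul_eq_mul, Set.ncard_eq_toFinset_card _ hfin]
    _ ≤ _ := Nat.mul_le_mul_right _ ncard_badTraces

/-- the stabilizer of a point of the projective line has index at least `p` -/
lemma stab_mul_le (P : XX p) :
    {h : SL(2, ZMod p) | rho p h P = P}.ncard * p ≤ Nat.card SL(2, ZMod p) := by
  rw [← Nat.card_coe_set_eq]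
  have hcard : Nat.card ({h : SL(2, ZMod p) | rho p h P = P} × ZMod p) =
      Nat.card {h : SL(2, ZMod p) | rho p h P = P} * p := by
    rw [Nat.card_prod, Nat.card_zmod]
  rw [← hcard]
  obtain ⟨τ, hτ⟩ : ∃ τ : ZMod p → SL(2, ZMod p), ∀ x y, rho p (τ x) P = rho p (τ y) P → x = y := by
    induction P using Projectivization.ind with
    | h v hv =>
      by_cases h1 : v 1 = 0
      · have h0 : v 0 ≠ 0 := by
          intro h0
          apply hv
          ext i
          fin_cases i
          · exact h0
          · exact h1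
        refine ⟨fun x => Matrix.SpecialLinearGroup.transvection one_ne_zero x, ?_⟩
        intro x y h
        rw [rho_apply, rho_apply, Projectivization.smul_mk, Projectivization.smul_mk,
          mk_eq_mk_iff_det] at h
        simp only [smul_apply_zero, smul_apply_one, map_apply,
          Matrix.SpecialLinearGroup.transvection_coe] at h
        simp [h1] at h
        have h' : (v 0 * v 0) * (algebraMap (ZMod p) (KK p) x) =
            (v 0 * v 0) * (algebraMap (ZMod p) (KK p) y) := by
          linear_combination -h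
        exact (algebraMap (ZMod p) (KK p)).injective
          (mul_left_cancel₀ (mul_ne_zero h0 h0) h')
      · refine ⟨fun x => Matrix.SpecialLinearGroup.transvection zero_ne_one x, ?_⟩
        intro x y h
        rw [rho_apply, rho_apply, Projectivization.smul_mk, Projectivization.smul_mk,
          mk_eq_mk_iff_det] at h
        simp only [smul_apply_zero, smul_apply_one, map_apply,
          Matrix.SpecialLinearGroup.transvection_coe] at h
        simp at h
        have h' : (v 1 * v 1) * (algebraMap (ZMod p) (KK p) x) =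
            (v 1 * v 1) * (algebraMap (ZMod p) (KK p) y) := by
          linear_combination h
        exact (algebraMap (ZMod p) (KK p)).injective
          (mul_left_cancel₀ (mul_ne_zero h1 h1) h')
  apply Nat.card_le_card_of_injective
    (fun x : {h : SL(2, ZMod p) | rho p h P = P} × ZMod p => τ x.2 * x.1.1)
  rintro ⟨⟨s, hs⟩, x⟩ ⟨⟨s', hs'⟩, y⟩ h
  simp only at h
  have h1 := congrArg (fun z => rho p z P) h
  simp only [map_mul, Equiv.Perm.mul_apply] at h1
  rw [Set.mem_ofPred_eq] at hs hs'
  rw [hs, hs'] at h1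
  have h2 := hτ x y h1
  subst h2
  have h3 : s = s' := mul_left_cancel h
  subst h3
  rfl

/-- the pairs with a common fixed point whose first member is not exceptional -/
lemma ncard_common_fix_le (hp : p ≠ 2) :
    {x : SL(2, ZMod p) × SL(2, ZMod p) | x.1 ∉ badElts p ∧
      ∃ P : XX p, rho p x.1 P = P ∧ rho p x.2 P = P}.ncard * p ≤
      2 * (Nat.card SL(2, ZMod p)) ^ 2 := by
  classical
  have h2 : (2 : ZMod p) ≠ 0 := by
    intro e
    have : (p : ℕ) ∣ 2 := by
      rw [← ZMod.natCast_eq_zero_iff]
      exact_mod_cast e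
    exact hp ((Nat.prime_dvd_prime_iff_eq (Fact.out) Nat.prime_two).1 this)
  have h2K : (2 : KK p) ≠ 0 := by
    intro e
    apply h2
    apply (algebraMap (ZMod p) (KK p)).injective
    rw [map_zero, map_ofNat, e]
  -- for each g the set of h
  have key : ∀ g : SL(2, ZMod p), g ∉ badElts p →
      {h : SL(2, ZMod p) | ∃ P : XX p, rho p g P = P ∧ rho p h P = P}.ncard * p ≤
        2 * Nat.card SL(2, ZMod p) := by
    intro g hg
    have htr : (g 0 0 + g 1 1) ^ 2 ≠ 4 := by
      intro e
      apply hg
      have hfac : (g 0 0 + g 1 1 - 2) * (g 0 0 + g 1 1 + 2) = 0 := by linear_combination e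
      rcases mul_eq_zero.1 hfac with h' | h'
      · right; left
        change g 0 0 + g 1 1 = 2
        linear_combination h'
      · right; right; left
        change g 0 0 + g 1 1 = -2
        linear_combination h'
    have hn := ncard_fixedBy h2K (Matrix.SpecialLinearGroup.map (algebraMap (ZMod p) (KK p)) g) (by
        simp only [map_apply]
        intro e
        apply htr
        apply (algebraMap (ZMod p) (KK p)).injective
        rw [map_pow, map_add, map_ofNat]
        exact e)
    obtain ⟨P, Q, -, hPQ⟩ := Set.ncard_eq_two.1 hn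
    have hsub : {h : SL(2, ZMod p) | ∃ P : XX p, rho p g P = P ∧ rho p h P = P} ⊆
        {h : SL(2, ZMod p) | rho p h P = P} ∪ {h : SL(2, ZMod p) | rho p h Q = Q} := by
      rintro h ⟨R, hR1, hR2⟩
      have : R ∈ fixedBy (ℙ (KK p) (Fin 2 → KK p))
          (Matrix.SpecialLinearGroup.map (algebraMap (ZMod p) (KK p)) g) := hR1
      rw [hPQ] at this
      rcases this with rfl | rfl
      · exact Or.inl hR2
      · exact Or.inr hR2
    calc _ ≤ ({h : SL(2, ZMod p) | rho p h P = P} ∪
          {h : SL(2, ZMod p) | rho p h Q = Q}).ncard * p :=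
          Nat.mul_le_mul_right _ (Set.ncard_le_ncard hsub (Set.toFinite _))
      _ ≤ ({h : SL(2, ZMod p) | rho p h P = P}.ncard +
          {h : SL(2, ZMod p) | rho p h Q = Q}.ncard) * p :=
          Nat.mul_le_mul_right _ (Set.ncard_union_le _ _)
      _ ≤ 2 * Nat.card SL(2, ZMod p) := by
          have := stab_mul_le P
          have := stab_mul_le Q
          rw [add_mul]
          omega
  have hunion : {x : SL(2, ZMod p) × SL(2, ZMod p) | x.1 ∉ badElts p ∧
      ∃ P : XX p, rho p x.1 P = P ∧ rho p x.2 P = P} =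
      ⋃ g ∈ (Finset.univ.filter (fun g : SL(2, ZMod p) => g ∉ badElts p)),
        (Prod.mk g) '' {h : SL(2, ZMod p) | ∃ P : XX p, rho p g P = P ∧ rho p h P = P} := by
    ext ⟨g, h⟩
    simp only [Set.mem_ofPred_eq, Finset.mem_filter, Finset.mem_univ, true_and, Set.mem_iUnion,
      Set.mem_image, Prod.mk.injEq, exists_prop]
    constructor
    · rintro ⟨h1, h2⟩
      exact ⟨g, h1, h, h2, rfl, rfl⟩
    · rintro ⟨g', h1, h', h2, rfl, rfl⟩
      exact ⟨h1, h2⟩
  rw [hunion]
  calc _ ≤ (∑ g ∈ (Finset.univ.filter (fun g : SL(2, ZMod p) => g ∉ badElts p)),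
        ((Prod.mk g) '' {h : SL(2, ZMod p) | ∃ P : XX p, rho p g P = P ∧
          rho p h P = P}).ncard) * p :=
        Nat.mul_le_mul_right _ (Finset.set_ncard_biUnion_le _ _)
    _ = ∑ g ∈ (Finset.univ.filter (fun g : SL(2, ZMod p) => g ∉ badElts p)),
        ((Prod.mk g) '' {h : SL(2, ZMod p) | ∃ P : XX p, rho p g P = P ∧
          rho p h P = P}).ncard * p := Finset.sum_mul _ _ _
    _ ≤ ∑ g ∈ (Finset.univ.filter (fun g : SL(2, ZMod p) => g ∉ badElts p)),
        2 * Nat.card SL(2, ZMod p) := by
        apply Finset.sum_le_sum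
        intro g hg
        rw [Set.ncard_image_of_injective _ (Prod.mk_right_injective g)]
        exact key g (Finset.mem_filter.1 hg).2
    _ ≤ ∑ _g : SL(2, ZMod p), 2 * Nat.card SL(2, ZMod p) :=
        Finset.sum_le_sum_of_subset (Finset.filter_subset _ _)
    _ = 2 * (Nat.card SL(2, ZMod p)) ^ 2 := by
        rw [Finset.sum_const, Finset.card_univ, smul_eq_mul, ← Nat.card_eq_fintype_card]
        ring

end Pool.Agent.Helper56.SL2
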