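import Mathlib
import Pool.Agent.Helper56.SL2Count

/-!
# Random pairs generate `PSL(2, p)`, and square roots of involutions
-/

namespace Pool.Agent.Helper56.SL2

open Matrix MulAction
open scoped MatrixGroups LinearAlgebra.Projectivization

variable {p : ℕ} [Fact p.Prime]

lemma good_of_not_bad {g h : SL(2, ZMod p)} (hg : g ∉ badElts p) (hh : h ∉ badElts p)
    (hfix : ¬ ∃ P : XX p, rho p g P = P ∧ rho p h P = P) : Good g h where
  tg := fun e => hg (Or.inl e)
  th := fun e => hh (Or.inl e)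
  ord := by
    intro k hk hk' e
    apply hg
    right; right; right
    exact tr_of_pow_eq_one g (pow_mm_eq_one g k hk hk' e)
  fix := fun P hP => hfix ⟨P, hP⟩

/-- the constant in the estimate -/
def CC : ℕ := 4 * mm + 14

lemma bad_pairs_SL (hp : p ≠ 2) :
    {x : SL(2, ZMod p) × SL(2, ZMod p) | Subgroup.closure {x.1, x.2} ≠ ⊤}.ncard * (p - 1) ≤
      CC * (Nat.card SL(2, ZMod p)) ^ 2 := by
  classical
  set N := Nat.card SL(2, ZMod p) with hN
  have hsub : {x : SL(2, ZMod p) × SL(2, ZMod p) | Subgroup.closure {x.1, x.2} ≠ ⊤} ⊆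
      (badElts p ×ˢ (Set.univ : Set SL(2, ZMod p))) ∪
      ((Set.univ : Set SL(2, ZMod p)) ×ˢ badElts p) ∪
      {x : SL(2, ZMod p) × SL(2, ZMod p) | x.1 ∉ badElts p ∧
        ∃ P : XX p, rho p x.1 P = P ∧ rho p x.2 P = P} := by
    rintro ⟨g, h⟩ hx
    by_cases hg : g ∈ badElts p
    · left; left; exact ⟨hg, trivial⟩
    by_cases hh : h ∈ badElts p
    · left; right; exact ⟨trivial, hh⟩
    right
    refine ⟨hg, ?_⟩
    by_contra hcon
    exact hx (closure_eq_top hp (good_of_not_bad hg hh hcon))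
  have h1 : (badElts p ×ˢ (Set.univ : Set SL(2, ZMod p))).ncard ≤ (mm + 3) * (2 * p ^ 2) * N := by
    rw [Set.ncard_prod, Set.ncard_univ]
    exact Nat.mul_le_mul_right _ ncard_badElts
  have h2 : ((Set.univ : Set SL(2, ZMod p)) ×ˢ badElts p).ncard ≤ N * ((mm + 3) * (2 * p ^ 2)) := by
    rw [Set.ncard_prod, Set.ncard_univ]
    exact Nat.mul_le_mul_left _ ncard_badElts
  have h3 := ncard_common_fix_le (p := p) hp
  have hlow := card_lower (p := p)
  set T := {x : SL(2, ZMod p) × SL(2, ZMod p) | x.1 ∉ badElts p ∧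
        ∃ P : XX p, rho p x.1 P = P ∧ rho p x.2 P = P}.ncard with hT
  have h4 : {x : SL(2, ZMod p) × SL(2, ZMod p) | Subgroup.closure {x.1, x.2} ≠ ⊤}.ncard ≤
      (mm + 3) * (2 * p ^ 2) * N + N * ((mm + 3) * (2 * p ^ 2)) + T :=
    calc _ ≤ _ := Set.ncard_le_ncard hsub (Set.toFinite _)
      _ ≤ _ := Set.ncard_union_le _ _
      _ ≤ _ := by
        apply Nat.add_le_add_right
        exact (Set.ncard_union_le _ _).trans (Nat.add_le_add h1 h2)
  have h5 : T * (p - 1) ≤ 2 * N ^ 2 := (Nat.mul_le_mul_left _ (Nat.sub_le _ _)).trans h3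
  calc _ ≤ ((mm + 3) * (2 * p ^ 2) * N + N * ((mm + 3) * (2 * p ^ 2)) + T) * (p - 1) :=
        Nat.mul_le_mul_right _ h4
    _ = 4 * (mm + 3) * N * ((p - 1) * p ^ 2) + T * (p - 1) := by ring
    _ ≤ 4 * (mm + 3) * N * N + 2 * N ^ 2 :=
        Nat.add_le_add (Nat.mul_le_mul_left _ hlow) h5
    _ = CC * N ^ 2 := by unfold CC; ring

/-- the number of pairs not generating `PSL(2, p)` is at most `CC / (p - 1)` times the number of
all pairs -/
theorem bad_pairs_PSL (hp : p ≠ 2) :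
    {x : PSL(2, ZMod p) × PSL(2, ZMod p) | Subgroup.closure {x.1, x.2} ≠ ⊤}.ncard * (p - 1) ≤
      CC * (Nat.card PSL(2, ZMod p)) ^ 2 := by
  classical
  set Z := Subgroup.center SL(2, ZMod p) with hZ
  set z := Nat.card Z with hz
  have hzpos : 0 < z := Nat.card_pos
  have hN : Nat.card SL(2, ZMod p) = Nat.card PSL(2, ZMod p) * z :=
    Subgroup.card_eq_card_quotient_mul_card_subgroup Z
  have hsurj : Function.Surjective (QuotientGroup.mk' Z) := QuotientGroup.mk'_surjective Z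
  choose l hl using hsurj
  set B := {x : PSL(2, ZMod p) × PSL(2, ZMod p) | Subgroup.closure {x.1, x.2} ≠ ⊤} with hB
  set B' := {x : SL(2, ZMod p) × SL(2, ZMod p) | Subgroup.closure {x.1, x.2} ≠ ⊤} with hB'
  have hinj : B.ncard * (z * z) ≤ B'.ncard := by
    rw [← Nat.card_coe_set_eq, ← Nat.card_coe_set_eq, ← Nat.card_prod, ← Nat.card_prod]
    refine Nat.card_le_card_of_injective
      (fun y : B × (Z × Z) => (⟨(l y.1.1.1 * y.2.1.1, l y.1.1.2 * y.2.2.1), ?_⟩ : B')) ?_
    · have hy : Subgroup.closure {y.1.1.1, y.1.1.2} ≠ ⊤ := y.1.2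
      change Subgroup.closure {l y.1.1.1 * y.2.1.1, l y.1.1.2 * y.2.2.1} ≠ ⊤
      intro e
      apply hy
      have := congrArg (Subgroup.map (QuotientGroup.mk' Z)) e
      rw [MonoidHom.map_closure, Set.image_pair, Subgroup.map_top_of_surjective _
        (QuotientGroup.mk'_surjective Z)] at this
      rw [← this]
      congr 2
      · rw [map_mul, hl]
        have : QuotientGroup.mk' Z y.2.1.1 = 1 := (QuotientGroup.eq_one_iff _).2 y.2.1.2
        rw [this, mul_one]
      · rw [map_mul, hl]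
        have : QuotientGroup.mk' Z y.2.2.1 = 1 := (QuotientGroup.eq_one_iff _).2 y.2.2.2
        rw [this, mul_one]
    · rintro ⟨⟨⟨a, b⟩, hab⟩, ⟨c, d⟩⟩ ⟨⟨⟨a', b'⟩, hab'⟩, ⟨c', d'⟩⟩ e
      simp only [Subtype.mk.injEq, Prod.mk.injEq] at e
      obtain ⟨e1, e2⟩ := e
      have aux : ∀ (a a' : PSL(2, ZMod p)) (c c' : Z), l a * c.1 = l a' * c'.1 →
          a = a' ∧ c = c' := by
        intro a a' c c' e
        have h1 := congrArg (QuotientGroup.mk' Z) e
        rw [map_mul, map_mul, hl, hl] at h1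
        have hc : QuotientGroup.mk' Z c.1 = 1 := (QuotientGroup.eq_one_iff _).2 c.2
        have hc' : QuotientGroup.mk' Z c'.1 = 1 := (QuotientGroup.eq_one_iff _).2 c'.2
        rw [hc, hc', mul_one, mul_one] at h1
        subst h1
        exact ⟨rfl, Subtype.ext (mul_left_cancel e)⟩
      obtain ⟨f1, f2⟩ := aux _ _ _ _ e1
      obtain ⟨f3, f4⟩ := aux _ _ _ _ e2
      subst f1 f2 f3 f4
      rfl
  have hmain := bad_pairs_SL (p := p) hp
  have h1 : (B.ncard * (p - 1)) * (z * z) ≤ (CC * (Nat.card PSL(2, ZMod p)) ^ 2) * (z * z) := by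
    calc (B.ncard * (p - 1)) * (z * z) = (B.ncard * (z * z)) * (p - 1) := by ring
      _ ≤ B'.ncard * (p - 1) := Nat.mul_le_mul_right _ hinj
      _ ≤ CC * (Nat.card SL(2, ZMod p)) ^ 2 := hmain
      _ = _ := by rw [hN]; ring
  exact Nat.le_of_mul_le_mul_right h1 (Nat.mul_pos hzpos hzpos)

end Pool.Agent.Helper56.SL2
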