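import Mathlib
import Pool.Agent.Helper56.HeckeOrbit
import Pool.Agent.Helper56.PSL2Pairs

/-!
# Random homomorphisms from `C₄ * F₂` to `PSL(2, p)`
-/

namespace Pool.Agent.Helper56.Hecke

open Matrix MulAction Filter Topology
open scoped MatrixGroups UpperHalfPlane LinearAlgebra.Projectivization Pointwise
open Pool.Agent.Helper56.Fuchsian

section general

variable {G : Type} [Group G] [Finite G]

lemma card_hom : Nat.card (Gam →* G) =
    Nat.card {u : G // u ^ 4 = 1} * (Nat.card G * Nat.card G) := by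
  rw [Nat.card_congr (homEquiv G), Nat.card_prod, Nat.card_prod]

instance : Finite (Gam →* G) := Finite.of_equiv _ (homEquiv G).symm

lemma card_fourth_pos : 0 < Nat.card {u : G // u ^ 4 = 1} := by
  have : Nonempty {u : G // u ^ 4 = 1} := ⟨⟨1, one_pow 4⟩⟩
  exact Nat.card_pos

lemma card_surj_ge : Nat.card {u : G // u ^ 4 = 1} *
    Nat.card {x : G × G // Subgroup.closure {x.1, x.2} = ⊤} ≤
      Nat.card {φ : Gam →* G // Function.Surjective φ} := by
  rw [← Nat.card_prod]
  refine Nat.card_le_card_of_injective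
    (fun y : {u : G // u ^ 4 = 1} × {x : G × G // Subgroup.closure {x.1, x.2} = ⊤} =>
      (⟨(homEquiv G).symm (y.1, y.2.1), ?_⟩ : {φ : Gam →* G // Function.Surjective φ})) ?_
  · rw [← MonoidHom.range_eq_top, eq_top_iff]
    refine le_trans (le_of_eq y.2.2.symm) ?_
    rw [Subgroup.closure_le]
    set φ := (homEquiv G).symm (y.1, y.2.1) with hφ
    have h1 : φ (gg 1) = y.2.1.1 := by
      rw [← homEquiv_snd_fst, hφ, Equiv.apply_symm_apply]
    have h2 : φ (gg 2) = y.2.1.2 := by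
      rw [← homEquiv_snd_snd, hφ, Equiv.apply_symm_apply]
    rintro z (rfl | hz)
    · exact ⟨gg 1, h1⟩
    · rw [Set.mem_singleton_iff] at hz
      exact ⟨gg 2, by rw [h2, hz]⟩
  · rintro ⟨u, x⟩ ⟨u', x'⟩ h
    have h1 := (homEquiv G).symm.injective
      (congrArg (fun z : {φ : Gam →* G // Function.Surjective φ} => z.1) h)
    simp only [Prod.mk.injEq] at h1
    exact Prod.ext h1.1 (Subtype.ext h1.2)

lemma card_kill_ge : Nat.card {u : G // u ^ 2 = 1} * (Nat.card G * Nat.card G) ≤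
    Nat.card {φ : Gam →* G // φ gam = 1} := by
  rw [← Nat.card_prod, ← Nat.card_prod]
  refine Nat.card_le_card_of_injective
    (fun y : {u : G // u ^ 2 = 1} × (G × G) =>
      (⟨(homEquiv G).symm (⟨y.1.1, by rw [show 4 = 2 * 2 from rfl, pow_mul, y.1.2, one_pow]⟩, y.2),
        ?_⟩ : {φ : Gam →* G // φ gam = 1})) ?_
  · set φ := (homEquiv G).symm (⟨y.1.1, by
      rw [show 4 = 2 * 2 from rfl, pow_mul, y.1.2, one_pow]⟩, y.2) with hφ
    have h0 : φ (gg 0) = y.1.1 := by
      rw [← homEquiv_fst, hφ, Equiv.apply_symm_apply]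
    rw [gam, map_mul, map_mul, map_mul, map_pow, h0, y.1.2, one_mul, mul_one, map_inv,
      mul_inv_cancel]
  · rintro ⟨u, x⟩ ⟨u', x'⟩ h
    have h1 := (homEquiv G).symm.injective
      (congrArg (fun z : {φ : Gam →* G // φ gam = 1} => z.1) h)
    simp only [Prod.mk.injEq, Subtype.mk.injEq] at h1
    exact Prod.ext (Subtype.ext h1.1) h1.2

lemma homProb_surj_ge : (Nat.card {x : G × G // Subgroup.closure {x.1, x.2} = ⊤} : ℝ) /
    (Nat.card G : ℝ) ^ 2 ≤ homProb Gam G (fun φ => Function.Surjective φ) := by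
  have h1 := card_fourth_pos (G := G)
  have h2 : 0 < Nat.card G := Nat.card_pos
  have h3 := card_surj_ge (G := G)
  unfold homProb
  rw [card_hom]
  have h1' : (0 : ℝ) < Nat.card {u : G // u ^ 4 = 1} := by exact_mod_cast h1
  have h2' : (0 : ℝ) < Nat.card G := by exact_mod_cast h2
  have h3' : (Nat.card {u : G // u ^ 4 = 1} : ℝ) *
      Nat.card {x : G × G // Subgroup.closure {x.1, x.2} = ⊤} ≤
      Nat.card {φ : Gam →* G // Function.Surjective φ} := by exact_mod_cast h3
  push_cast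
  rw [div_le_div_iff₀ (by positivity) (by positivity)]
  calc (Nat.card {x : G × G // Subgroup.closure {x.1, x.2} = ⊤} : ℝ) *
        ((Nat.card {u : G // u ^ 4 = 1} : ℝ) * (Nat.card G * Nat.card G))
      = ((Nat.card {u : G // u ^ 4 = 1} : ℝ) *
        Nat.card {x : G × G // Subgroup.closure {x.1, x.2} = ⊤}) * (Nat.card G : ℝ) ^ 2 := by ring
    _ ≤ _ := mul_le_mul_of_nonneg_right h3' (by positivity)

lemma homProb_le_one (P : (Gam →* G) → Prop) : homProb Gam G P ≤ 1 := by
  unfold homProb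
  apply div_le_one_of_le₀
  · exact_mod_cast Nat.card_le_card_of_injective Subtype.val Subtype.val_injective
  · positivity

lemma homProb_kill_ge
    (h : Nat.card {u : G // u ^ 4 = 1} ≤ 3 * Nat.card {u : G // u ^ 2 = 1}) :
    1 / 3 ≤ homProb Gam G (fun φ => φ gam = 1) := by
  have h1 := card_fourth_pos (G := G)
  have h2 : 0 < Nat.card G := Nat.card_pos
  have h3 := card_kill_ge (G := G)
  unfold homProb
  rw [card_hom]
  have h1' : (0 : ℝ) < Nat.card {u : G // u ^ 4 = 1} := by exact_mod_cast h1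
  have h2' : (0 : ℝ) < Nat.card G := by exact_mod_cast h2
  have h3' : (Nat.card {u : G // u ^ 2 = 1} : ℝ) * (Nat.card G * Nat.card G) ≤
      Nat.card {φ : Gam →* G // φ gam = 1} := by exact_mod_cast h3
  have h4' : (Nat.card {u : G // u ^ 4 = 1} : ℝ) ≤ 3 * Nat.card {u : G // u ^ 2 = 1} := by
    exact_mod_cast h
  push_cast
  rw [div_le_div_iff₀ (by norm_num) (by positivity)]
  calc 1 * ((Nat.card {u : G // u ^ 4 = 1} : ℝ) * (Nat.card G * Nat.card G))
      ≤ (3 * Nat.card {u : G // u ^ 2 = 1}) * (Nat.card G * Nat.card G) := by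
        rw [one_mul]
        exact mul_le_mul_of_nonneg_right h4' (by positivity)
    _ = ((Nat.card {u : G // u ^ 2 = 1} : ℝ) * (Nat.card G * Nat.card G)) * 3 := by ring
    _ ≤ _ := mul_le_mul_of_nonneg_right h3' (by norm_num)

end general

/-- the primes at least five -/
abbrev Pr : Type := {p : ℕ // p.Prime ∧ 5 ≤ p}

instance (q : Pr) : Fact (q : ℕ).Prime := ⟨q.2.1⟩

/-- the family of the groups `PSL(2, p)` for the primes `p ≥ 5` -/
abbrev GG (q : Pr) : Type := PSL(2, ZMod q)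

lemma finite_GG (q : Pr) : Finite (GG q) := by
  have h : Finite SL(2, ZMod q) := inferInstance
  exact Finite.of_surjective _ (QuotientGroup.mk_surjective
    (s := Subgroup.center SL(2, ZMod q)))

lemma simple_GG (q : Pr) : IsSimpleGroup (GG q) := by
  apply Matrix.ProjectiveSpecialLinearGroup.rank_two_simple
  rw [Nat.card_zmod]
  have := q.2.2
  omega

/-- the transvection of order `p` -/
def tv (q : Pr) : SL(2, ZMod q) := Matrix.SpecialLinearGroup.transvection zero_ne_one 1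

/-- the opposite transvection -/
def tv' (q : Pr) : SL(2, ZMod q) := Matrix.SpecialLinearGroup.transvection one_ne_zero 1

lemma one_ne_neg_one (q : Pr) : (1 : ZMod q) ≠ -1 := by
  intro e
  have h : ((2 : ℕ) : ZMod q) = 0 := by
    push_cast
    linear_combination e
  rw [ZMod.natCast_eq_zero_iff] at h
  have := Nat.le_of_dvd (by norm_num) h
  have := q.2.2
  omega

lemma tv_entries (q : Pr) : tv q 0 0 = 1 ∧ tv q 0 1 = 1 ∧ tv q 1 0 = 0 ∧ tv q 1 1 = 1 := by
  refine ⟨?_, ?_, ?_, ?_⟩ <;> simp [tv, Matrix.SpecialLinearGroup.transvection_coe]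

lemma tv'_entries (q : Pr) : tv' q 0 0 = 1 ∧ tv' q 0 1 = 0 ∧ tv' q 1 0 = 1 ∧ tv' q 1 1 = 1 := by
  refine ⟨?_, ?_, ?_, ?_⟩ <;> simp [tv', Matrix.SpecialLinearGroup.transvection_coe]

lemma tv_ne (q : Pr) : (QuotientGroup.mk (tv q) : GG q) ≠ 1 := by
  rw [Ne, SL2.mk_eq_one_iff]
  obtain ⟨h1, h2, h3, h4⟩ := tv_entries q
  rintro (h | h)
  · rw [h] at h2
    simp at h2
  · rw [h] at h2
    simp at h2

lemma tv_pow (q : Pr) (n : ℕ) :
    tv q ^ n = Matrix.SpecialLinearGroup.transvection zero_ne_one (n : ZMod q) := by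
  induction n with
  | zero => simp
  | succ n ih =>
    rw [pow_succ, ih, tv, ← Matrix.SpecialLinearGroup.transvection_add]
    push_cast
    rfl

lemma prime_dvd_card (q : Pr) : (q : ℕ) ∣ Nat.card (GG q) := by
  have := finite_GG q
  have h : orderOf (QuotientGroup.mk (tv q) : GG q) = q := by
    apply orderOf_eq_prime
    · rw [← QuotientGroup.mk_pow, tv_pow, ZMod.natCast_self]
      simp
    · exact tv_ne q
  rw [← h]
  exact orderOf_dvd_natCard _

lemma card_GG_dvd (q : Pr) : Nat.card (GG q) ∣ ((q : ℕ) ^ 2 - 1) * ((q : ℕ) ^ 2 - q) := by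
  have h1 : Nat.card (GG q) ∣ Nat.card SL(2, ZMod q) :=
    Subgroup.card_quotient_dvd_card (Subgroup.center SL(2, ZMod q))
  have h2 : Nat.card SL(2, ZMod q) ∣ Nat.card (GL (Fin 2) (ZMod q)) := by
    apply Subgroup.card_dvd_of_injective (Matrix.SpecialLinearGroup.toGL)
    exact Matrix.SpecialLinearGroup.toGL_injective
  have h3 := Matrix.card_GL_field (𝔽 := ZMod q) 2
  rw [Fin.prod_univ_two] at h3
  simp only [ZMod.card, Fin.coe_ofNat_eq_mod] at h3
  have h4 : Nat.card (GL (Fin 2) (ZMod q)) = ((q : ℕ) ^ 2 - 1) * ((q : ℕ) ^ 2 - q) := by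
    rw [h3]
    simp
  rw [← h4]
  exact h1.trans h2

lemma noniso_aux (p q : Pr) (hpq : (p : ℕ) < q) (h : Nat.card (GG p) = Nat.card (GG q)) :
    False := by
  have h1 := prime_dvd_card q
  rw [← h] at h1
  have h2 := h1.trans (card_GG_dvd p)
  have hp := p.2.2
  have hpp := p.2.1
  have hqp := q.2.1
  have e1 : (p : ℕ) ^ 2 - 1 = (p - 1) * (p + 1) := by
    obtain ⟨k, hk⟩ : ∃ k, (p : ℕ) = k + 1 := ⟨p - 1, by omega⟩
    rw [hk]
    have : (k + 1) ^ 2 - 1 = k * (k + 2) := by
      have : (k + 1) ^ 2 = k * (k + 2) + 1 := by ring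
      omega
    rw [this]
    simp
  have e2 : (p : ℕ) ^ 2 - p = p * (p - 1) := by
    obtain ⟨k, hk⟩ : ∃ k, (p : ℕ) = k + 1 := ⟨p - 1, by omega⟩
    rw [hk]
    have : (k + 1) ^ 2 = (k + 1) * k + (k + 1) := by ring
    rw [this]
    simp
  rw [e1, e2] at h2
  rcases (Nat.Prime.dvd_mul hqp).1 h2 with h3 | h3
  · rcases (Nat.Prime.dvd_mul hqp).1 h3 with h4 | h4
    · have := Nat.le_of_dvd (by omega) h4
      omega
    · have h5 := Nat.le_of_dvd (by omega) h4
      have h6 : (q : ℕ) = p + 1 := by omega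
      have h7 : (p : ℕ) % 2 = 1 := by
        rcases hpp.eq_two_or_odd with h | h
        · omega
        · exact h
      have h8 : (q : ℕ) % 2 = 1 := by
        rcases hqp.eq_two_or_odd with h | h
        · omega
        · exact h
      omega
  · rcases (Nat.Prime.dvd_mul hqp).1 h3 with h4 | h4
    · have := Nat.le_of_dvd (by omega) h4
      omega
    · have := Nat.le_of_dvd (by omega) h4
      omega

theorem infinite_set : IsInfiniteSetOfFiniteSimpleGroups GG where
  infinite := by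
    have h : {p : ℕ | p.Prime ∧ 5 ≤ p}.Infinite := by
      apply Set.infinite_of_not_bddAbove
      rintro ⟨B, hB⟩
      obtain ⟨p, hp1, hp2⟩ := Nat.exists_infinite_primes (B + 6)
      have := hB (a := p) ⟨hp2, by omega⟩
      omega
    exact h.to_subtype
  finite := finite_GG
  simple := simple_GG
  nonabelian := by
    intro q
    refine ⟨QuotientGroup.mk (tv q), QuotientGroup.mk (tv' q), ?_⟩
    rw [← QuotientGroup.mk_mul, ← QuotientGroup.mk_mul, Ne, SL2.mk_eq_mk_iff]
    obtain ⟨h1, h2, h3, h4⟩ := tv_entries q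
    obtain ⟨h1', h2', h3', h4'⟩ := tv'_entries q
    rintro (h | h)
    · have e := congrArg (fun M : SL(2, ZMod q) => M 0 0) h
      simp only [SL2.entry', h1, h2, h3, h4, h1', h2', h3', h4'] at e
      have : (1 : ZMod q) = 0 := by linear_combination e
      exact one_ne_zero this
    · have e := congrArg (fun M : SL(2, ZMod q) => M 0 1) h
      simp only [SL2.neg_apply', SL2.entry', h1, h2, h3, h4, h1', h2', h3', h4'] at e
      apply one_ne_neg_one q
      linear_combination e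
  noniso := by
    rintro p q ⟨e⟩
    have hc := Nat.card_congr e.toEquiv
    apply Subtype.ext
    rcases lt_trichotomy (p : ℕ) q with h | h | h
    · exact (noniso_aux p q h hc).elim
    · exact h
    · exact (noniso_aux q p h hc.symm).elim

lemma card_GG_le (q : Pr) : Nat.card (GG q) ≤ (q : ℕ) ^ 4 := by
  have h1 := card_GG_dvd q
  have hq := q.2.2
  have h2 : 0 < ((q : ℕ) ^ 2 - 1) * ((q : ℕ) ^ 2 - q) := by
    apply Nat.mul_pos
    · have : 5 ^ 2 ≤ (q : ℕ) ^ 2 := Nat.pow_le_pow_left hq 2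
      omega
    · have : (q : ℕ) * 5 ≤ (q : ℕ) ^ 2 := by
        rw [pow_two]
        exact Nat.mul_le_mul_left _ hq
      omega
  calc Nat.card (GG q) ≤ ((q : ℕ) ^ 2 - 1) * ((q : ℕ) ^ 2 - q) := Nat.le_of_dvd h2 h1
    _ ≤ (q : ℕ) ^ 2 * (q : ℕ) ^ 2 := Nat.mul_le_mul (Nat.sub_le _ _) (Nat.sub_le _ _)
    _ = (q : ℕ) ^ 4 := by ring

lemma homProb_surj_ge' (q : Pr) :
    1 - (SL2.CC : ℝ) / ((q : ℕ) - 1 : ℝ) ≤ homProb Gam (GG q) (fun φ => Function.Surjective φ) := by
  have hfin := finite_GG q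
  have hq := q.2.2
  refine le_trans ?_ homProb_surj_ge
  have hbad := SL2.bad_pairs_PSL (p := q) (by omega)
  have hN : 0 < Nat.card (GG q) := Nat.card_pos
  have hN' : (0 : ℝ) < Nat.card (GG q) := by exact_mod_cast hN
  have hsum : Nat.card {x : GG q × GG q // Subgroup.closure {x.1, x.2} = ⊤} +
      {x : GG q × GG q | Subgroup.closure {x.1, x.2} ≠ ⊤}.ncard = Nat.card (GG q) ^ 2 := by
    have h1 : Nat.card {x : GG q × GG q // Subgroup.closure {x.1, x.2} = ⊤} =
        {x : GG q × GG q | Subgroup.closure {x.1, x.2} = ⊤}.ncard :=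
      Nat.card_coe_set_eq _
    have h2 : {x : GG q × GG q | Subgroup.closure {x.1, x.2} ≠ ⊤} =
        {x : GG q × GG q | Subgroup.closure {x.1, x.2} = ⊤}ᶜ := rfl
    rw [h1, h2, Set.ncard_add_ncard_compl, Nat.card_prod, pow_two]
  have hbad' : ({x : GG q × GG q | Subgroup.closure {x.1, x.2} ≠ ⊤}.ncard : ℝ) *
      ((q : ℕ) - 1 : ℝ) ≤ (SL2.CC : ℝ) * (Nat.card (GG q) : ℝ) ^ 2 := by
    have : (({x : GG q × GG q | Subgroup.closure {x.1, x.2} ≠ ⊤}.ncard * ((q : ℕ) - 1) : ℕ) : ℝ) ≤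
      ((SL2.CC * Nat.card (GG q) ^ 2 : ℕ) : ℝ) := by exact_mod_cast hbad
    rw [Nat.cast_mul, Nat.cast_sub (by omega), Nat.cast_mul, Nat.cast_pow] at this
    simpa using this
  have hsum' : (Nat.card {x : GG q × GG q // Subgroup.closure {x.1, x.2} = ⊤} : ℝ) +
      ({x : GG q × GG q | Subgroup.closure {x.1, x.2} ≠ ⊤}.ncard : ℝ) =
        (Nat.card (GG q) : ℝ) ^ 2 := by exact_mod_cast hsum
  have hq1 : (0 : ℝ) < ((q : ℕ) - 1 : ℝ) := by
    have : (5 : ℝ) ≤ (q : ℕ) := by exact_mod_cast hq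
    linarith
  rw [le_div_iff₀ (by positivity)]
  have h5 : ({x : GG q × GG q | Subgroup.closure {x.1, x.2} ≠ ⊤}.ncard : ℝ) ≤
      (SL2.CC : ℝ) / ((q : ℕ) - 1 : ℝ) * (Nat.card (GG q) : ℝ) ^ 2 := by
    rw [div_mul_eq_mul_div, le_div_iff₀ hq1]
    exact hbad'
  linarith

theorem hypothesisH : HypothesisH Gam GG := by
  unfold HypothesisH
  -- the filter forces `q` to tend to infinity
  have hq : Tendsto (fun q : Pr => ((q : ℕ) : ℝ)) (comap (fun q : Pr => Nat.card (GG q)) atTop)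
      atTop := by
    apply tendsto_natCast_atTop_atTop.comp
    rw [tendsto_atTop]
    intro b
    rw [eventually_comap]
    filter_upwards [eventually_gt_atTop (b ^ 4)] with a ha q hqa
    by_contra hcon
    push Not at hcon
    have h1 := card_GG_le q
    have h2 : (q : ℕ) ^ 4 ≤ b ^ 4 := Nat.pow_le_pow_left hcon.le 4
    omega
  have hlim : Tendsto (fun q : Pr => 1 - (SL2.CC : ℝ) / ((q : ℕ) - 1 : ℝ))
      (comap (fun q : Pr => Nat.card (GG q)) atTop) (𝓝 1) := by
    have h1 : Tendsto (fun q : Pr => ((q : ℕ) : ℝ) - 1)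
        (comap (fun q : Pr => Nat.card (GG q)) atTop) atTop :=
      tendsto_atTop_add_const_right _ _ hq
    have h2 := (h1.const_div_atTop (SL2.CC : ℝ)).const_sub 1
    simpa using h2
  refine tendsto_of_tendsto_of_tendsto_of_le_of_le hlim tendsto_const_nhds ?_ ?_
  · intro q
    exact homProb_surj_ge' q
  · intro q
    have := finite_GG q
    exact homProb_le_one _

theorem kill (q : Pr) : 1 / 3 ≤ homProb Gam (GG q) (fun φ => φ gam = 1) := by
  have := finite_GG q
  apply homProb_kill_ge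
  have h2 : (2 : ZMod q) ≠ 0 := by
    intro e
    apply one_ne_neg_one q
    linear_combination e
  have := SL2.fourth_roots_le h2
  exact this

/-- Hypothesis (H) passes to subfamilies -/
theorem hyp_comp {ι κ : Type} (Γ : Type*) [Group Γ] (G : ι → Type) [∀ i, Group (G i)] (f : κ → ι)
    (h : HypothesisH Γ G) : HypothesisH Γ (fun k => G (f k)) := by
  unfold HypothesisH at h ⊢
  have h2 : Tendsto f (comap (fun k => Nat.card (G (f k))) atTop)
      (comap (fun i => Nat.card (G i)) atTop) := by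
    rw [tendsto_comap_iff]
    exact tendsto_comap
  exact h.comp h2

theorem hypothesisH_sub (T : Set ℕ) (hp : ∀ p ∈ T, p.Prime ∧ 5 ≤ p) :
    HypothesisH Gam (fun p : T => PSL(2, ZMod p)) :=
  hyp_comp Gam GG (fun p : T => (⟨p, hp p p.2⟩ : Pr)) hypothesisH

theorem infinite_set_sub (T : Set ℕ) (hT : T.Infinite) (hp : ∀ p ∈ T, p.Prime ∧ 5 ≤ p) :
    IsInfiniteSetOfFiniteSimpleGroups (fun p : T => PSL(2, ZMod p)) where
  infinite := hT.to_subtype
  finite := fun p => infinite_set.finite ⟨p, hp p p.2⟩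
  simple := fun p => infinite_set.simple ⟨p, hp p p.2⟩
  nonabelian := fun p => infinite_set.nonabelian ⟨p, hp p p.2⟩
  noniso := by
    intro p q e
    have := infinite_set.noniso ⟨p, hp p p.2⟩ ⟨q, hp q q.2⟩ e
    exact Subtype.ext (congrArg (fun q : Pr => (q : ℕ)) this)

theorem kill_sub (T : Set ℕ) (hp : ∀ p ∈ T, p.Prime ∧ 5 ≤ p) (p : T) :
    1 / 3 ≤ homProb Gam PSL(2, ZMod p) (fun φ => φ gam = 1) :=
  kill ⟨p, hp p p.2⟩

end Pool.Agent.Helper56.Hecke
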